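import Pool.Agent.V8H44.PS.Kinds

/-!
Two equivalence relations.
-/

set_option autoImplicit false
set_option linter.unusedVariables false

namespace Pool.Agent.V8H44.PS

open FirstOrder Pool.Agent.V8H44.Sp

/-- `back` for equivalence relations -/
theorem back' (T : TileSys) {P : Type} [Finite P] [Nonempty P] {R1 R2 : P → P → Prop}
    {X Y : Type} {g : P → X} {h : P → Y} (hg : Function.Surjective g)
    (hh : Function.Surjective h) (e1 : ∀ a b, g a = g b ↔ R1 a b) (e2 : ∀ a b, h a = h b ↔ R2 a b)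
    (hW : WF T R1 R2 (Mlt R1 R2)) :
    ∃ N, 0 < N ∧ T.Sol N ∧ Nat.card X = 2 * N ∧ Nat.card Y = 2 * N ∧
      Nat.card P = N ^ 2 * (KK T + 1) + N * (2 * KK T + 3) := by
  have h1 : R1 = fun a b => g a = g b := by
    funext a b
    exact propext (e1 a b).symm
  have h2 : R2 = fun a b => h a = h b := by
    funext a b
    exact propext (e2 a b).symm
  rw [h1, h2] at hW
  exact back T hg hh hW

theorem pair_ee (T : TileSys) : ∃ ψ : LP.Sentence, PairSpec .ee ψ =
    {n | ∃ N, 0 < N ∧ T.Sol N ∧ n = N ^ 2 * (KK T + 1) + N * (2 * KK T + 3 + 0)} := by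
  refine assemble .ee T 0 (U := fun _ _ _ => True) (R1 := fun M s => pr s 0)
    (R2 := fun M s => pr s 1) (Ax := fun _ _ => True) (fun _ => UD.tru) (ud_pr 0) (ud_pr 1)
    UD.tru ?_ ?_
  · rintro M s _ ⟨h1, h2⟩ - ⟨x, _⟩ hW
    have : Nonempty {a : M // True} := ⟨⟨x, trivial⟩⟩
    let s1 : Setoid {a : M // True} :=
      ⟨fun a b => pr s 0 a b, ⟨fun a => h1.1 a, fun h => h1.2 h, fun h h' => h1.3 h h'⟩⟩
    let s2 : Setoid {a : M // True} :=
      ⟨fun a b => pr s 1 a b, ⟨fun a => h2.1 a, fun h => h2.2 h, fun h h' => h2.3 h h'⟩⟩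
    obtain ⟨N, g1, g2, _, _, g5⟩ := back' T (g := Quotient.mk s1) (h := Quotient.mk s2)
      Quotient.mk_surjective Quotient.mk_surjective (fun a b => Quotient.eq) (fun a b => Quotient.eq)
      hW
    refine ⟨N, g1, g2, ?_⟩
    rw [Nat.add_zero, ← g5]
    exact (Nat.card_congr (Equiv.subtypeUnivEquiv fun _ => trivial)).symm
  · intro N hN hs
    obtain ⟨c, hd, hc⟩ := exists_col T hN hs
    refine ⟨El c, mkP ![fun a b => a.1.row = b.1.row, fun a b => a.1.col = b.1.col],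
      inferInstance, ⟨?_, ?_⟩, trivial, ?_, ?_, ?_⟩
    · exact ⟨fun _ => rfl, fun h => h.symm, fun h h' => h.trans h'⟩
    · exact ⟨fun _ => rfl, fun h => h.symm, fun h h' => h.trans h'⟩
    · exact ⟨⟨.lp ⟨0, hN⟩, ⟨0, Pt.mult_pos _⟩⟩, trivial⟩
    · exact forth T hd hc (Equiv.subtypeUnivEquiv fun _ => trivial).symm
        (fun a b => Iff.rfl) (fun a b => Iff.rfl)
    · rw [Nat.card_eq_fintype_card, card_El, Nat.add_zero]

end Pool.Agent.V8H44.PS
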