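import Pool.Agent.V8H44.PS.LL
import Pool.Agent.V8H44.Sp.UnivS

/-!
Spectra of pairs.
-/

set_option autoImplicit false

namespace Pool.Agent.V8H44.PS

open FirstOrder Pool.Agent.V8H44.Sp

theorem pair_tile (k : Kind) (T : TileSys) : ∃ (a b : ℕ) (ψ : LP.Sentence), 0 < a ∧
    PairSpec k ψ = {n | ∃ N, 0 < N ∧ T.Sol N ∧ n = a * N ^ 2 + b * N} := by
  cases k
  · obtain ⟨ψ, h⟩ := pair_ll T
    refine ⟨KK T + 1, 2 * KK T + 3 + 4, ψ, Nat.succ_pos _, h.trans ?_⟩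
    ext n
    refine exists_congr fun N => and_congr Iff.rfl (and_congr Iff.rfl ?_)
    rw [mul_comm (N ^ 2), mul_comm N]
  · obtain ⟨ψ, h⟩ := pair_le T
    refine ⟨KK T + 1, 2 * KK T + 3 + 2, ψ, Nat.succ_pos _, h.trans ?_⟩
    ext n
    refine exists_congr fun N => and_congr Iff.rfl (and_congr Iff.rfl ?_)
    rw [mul_comm (N ^ 2), mul_comm N]
  · obtain ⟨ψ, h⟩ := pair_ee T
    refine ⟨KK T + 1, 2 * KK T + 3 + 0, ψ, Nat.succ_pos _, h.trans ?_⟩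
    ext n
    refine exists_congr fun N => and_congr Iff.rfl (and_congr Iff.rfl ?_)
    rw [mul_comm (N ^ 2), mul_comm N]

theorem quad_inj {a b x y : ℕ} (ha : 0 < a) (h : a * x ^ 2 + b * x = a * y ^ 2 + b * y) :
    x = y := by
  rcases lt_trichotomy x y with h1 | h1 | h1
  · nlinarith [Nat.mul_le_mul_left b h1.le, Nat.mul_lt_mul_of_pos_left (Nat.pow_lt_pow_left h1
      two_ne_zero) ha]
  · exact h1
  · nlinarith [Nat.mul_le_mul_left b h1.le, Nat.mul_lt_mul_of_pos_left (Nat.pow_lt_pow_left h1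
      two_ne_zero) ha]

theorem pair_spec (k : Kind) (L : FirstOrder.Language.{0, 0}) (φ : L.Sentence) :
    ∃ (a b e : ℕ) (ψ : LP.Sentence), 0 < a ∧ 0 < e ∧
      PairSpec k ψ = {n | ∃ m ∈ Spec φ, n = a * (m ^ e) ^ 2 + b * m ^ e} := by
  obtain ⟨e, T, he, hT⟩ := exists_tileSys φ
  obtain ⟨a, b, ψ, ha, hψ⟩ := pair_tile k T
  refine ⟨a, b, e, ψ, ha, he, hψ.trans ?_⟩
  ext n
  constructor
  · rintro ⟨N, h1, h2, rfl⟩
    obtain ⟨m, hm, rfl⟩ := (hT N h1).1 h2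
    exact ⟨m, hm, rfl⟩
  · rintro ⟨m, hm, rfl⟩
    have h1 : 0 < m ^ e := Nat.pow_pos hm.1
    exact ⟨m ^ e, h1, (hT _ h1).2 ⟨m, hm, rfl⟩, rfl⟩

theorem pair_pre {k : Kind} {L : FirstOrder.Language.{0, 0}} {φ : L.Sentence} {a b e : ℕ}
    {ψ : LP.Sentence} (ha : 0 < a) (he : 0 < e)
    (h : PairSpec k ψ = {n | ∃ m ∈ Spec φ, n = a * (m ^ e) ^ 2 + b * m ^ e}) (m : ℕ) :
    m ∈ Spec φ ↔ a * (m ^ e) ^ 2 + b * m ^ e ∈ PairSpec k ψ := by
  rw [h]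
  constructor
  · intro hm
    exact ⟨m, hm, rfl⟩
  · rintro ⟨m', hm', h1⟩
    have h2 := quad_inj ha h1
    rwa [Nat.pow_left_injective he.ne' h2]

/-- **Pairs.** -/
theorem main (k : Kind) :
    (∀ (L : FirstOrder.Language.{0, 0}) (φ : L.Sentence),
      ∃ (a b e : ℕ) (ψ : LP.Sentence), 0 < a ∧ 0 < e ∧
        PairSpec k ψ = {n | ∃ m ∈ Spec φ, n = a * (m ^ e) ^ 2 + b * m ^ e}) ∧
    ((∀ (L : FirstOrder.Language.{0, 0}) (φ : L.Sentence), IsRud (Spec φ)) ↔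
      ∀ ψ : LP.Sentence, IsRud (PairSpec k ψ)) ∧
    ∃ Ψ : LP.Sentence,
      (∀ (L : FirstOrder.Language.{0, 0}) (φ : L.Sentence), ∃ p : Polynomial ℕ,
        ∀ m, 0 < m → (m ∈ Spec φ ↔ p.eval m ∈ PairSpec k Ψ)) ∧
      ((∀ (L : FirstOrder.Language.{0, 0}) (φ : L.Sentence), IsRud (Spec φ)) ↔
        IsRud (PairSpec k Ψ)) := by
  obtain ⟨φU, hU⟩ := univ_spec
  obtain ⟨a, b, e, Ψ, ha, he, hΨ⟩ := pair_spec k LU φU
  have hpoly : ∀ (L : FirstOrder.Language.{0, 0}) (φ : L.Sentence), ∃ p : Polynomial ℕ,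
      ∀ m, 0 < m → (m ∈ Spec φ ↔ p.eval m ∈ PairSpec k Ψ) := by
    intro L φ
    obtain ⟨a', k', hk', hφ⟩ := exists_poly φ
    let p0 : Polynomial ℕ := ((Polynomial.X ^ k' + Polynomial.C a') *
      (Polynomial.X ^ k' + Polynomial.C a')) + Polynomial.C a' + 1
    refine ⟨Polynomial.C a * (p0 ^ e) ^ 2 + Polynomial.C b * p0 ^ e, fun m hm => ?_⟩
    rw [hφ m hm, ← hU, pair_pre ha he hΨ]
    simp only [p0, Polynomial.eval_pow, Polynomial.eval_add, Polynomial.eval_mul,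
      Polynomial.eval_X, Polynomial.eval_C, Polynomial.eval_one]
  have hone : IsRud (PairSpec k Ψ) →
      ∀ (L : FirstOrder.Language.{0, 0}) (φ : L.Sentence), IsRud (Spec φ) := by
    intro h L φ
    obtain ⟨p, hp⟩ := hpoly L φ
    refine Rud.congr ((h.preimage p).inter isRud_pos) fun v => ?_
    show (p.eval (v 0) ∈ PairSpec k Ψ ∧ 0 < v 0) ↔ v 0 ∈ Spec φ
    constructor
    · rintro ⟨h1, h2⟩
      exact (hp _ h2).2 h1
    · intro h1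
      exact ⟨(hp _ h1.1).1 h1, h1.1⟩
  have hall : (∀ (L : FirstOrder.Language.{0, 0}) (φ : L.Sentence), IsRud (Spec φ)) →
      ∀ ψ : LP.Sentence, IsRud (PairSpec k ψ) := by
    intro h ψ
    obtain ⟨φ, hφ⟩ := pairSpec_spec k ψ
    rw [← hφ]
    exact h _ _
  exact ⟨fun L φ => pair_spec k L φ, ⟨hall, fun h => hone (h Ψ)⟩, Ψ, hpoly,
    ⟨fun h => hall h Ψ, hone⟩⟩

end Pool.Agent.V8H44.PS
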