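import Pool.Agent.V8H44.PS.UDW

/-!
Pairs of relations: two linear orders, a linear order and an equivalence relation, two equivalence
relations.
-/

set_option autoImplicit false
set_option linter.unusedVariables false
set_option linter.unusedSimpArgs false
set_option warn.classDefReducibility false

namespace Pool.Agent.V8H44.PS

open FirstOrder Pool.Agent.V8H44.Sp

/-- the language with two binary relation symbols -/
def LP : FirstOrder.Language.{0, 0} := LB Empty (Fin 2)

/-- the relations of a structure -/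
def pr {M : Type} (s : LP.Structure M) (i : Fin 2) (a b : M) : Prop :=
  s.RelMap (n := 2) (BinRel.bi (I := Empty) i) ![a, b]

/-- the structure with given relations -/
def mkP {M : Type} (R : Fin 2 → M → M → Prop) : LP.Structure M where
  funMap f _ := Empty.elim f
  RelMap {r} R' v := match r, R', v with
    | _, .un i, _ => Empty.elim i
    | _, .bi j, v => R j (v 0) (v 1)

theorem pr_mkP {M : Type} (R : Fin 2 → M → M → Prop) (i : Fin 2) (a b : M) :
    pr (mkP R) i a b ↔ R i a b := Iff.rfl

/-- the three kinds of pairs -/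
inductive Kind : Type
  | ll
  | le
  | ee

/-- the two relations form a pair of the given kind -/
def IsPair {M : Type} : Kind → (M → M → Prop) → (M → M → Prop) → Prop
  | .ll, A, B => IsLin A ∧ IsLin B
  | .le, A, B => IsLin A ∧ Equivalence B
  | .ee, A, B => Equivalence A ∧ Equivalence B

/-- the sizes of the finite pairs of the kind `k` in which `ψ` is true -/
def PairSpec (k : Kind) (ψ : LP.Sentence) : Set ℕ :=
  {n | 0 < n ∧ ∃ (M : Type) (s : LP.Structure M) (_ : Fintype M), Fintype.card M = n ∧
    IsPair k (pr s 0) (pr s 1) ∧ Language.Sentence.Realize M ψ}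

theorem ud_pr (r : Fin 2) : D2 (L := LP) (fun M s => pr s r) := by
  intro i j
  refine (UD.rel (L := LP) (r := 2) (BinRel.bi (I := Empty) r) ![i, j]).congr fun M s v => ?_
  unfold pr
  rw [show (fun k => v (![i, j] k)) = ![v i, v j] by
    funext k
    fin_cases k <;> rfl]

section

variable {L : FirstOrder.Language.{0, 0}}
  {R : ∀ (M : Type) (_ : L.Structure M), M → M → Prop}

theorem ud_equivalence (h : D2 R) : UD (L := L) (fun M s _ => Equivalence (R M s)) := by
  have h1 : UD (L := L) (fun M s _ => ∀ a, R M s a a) := by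
    refine ((h 0 0).all 0).congr ?_
    intro M s v
    simp (disch := omega) only [Function.update_self, Function.update_of_ne]
  have h2 : UD (L := L) (fun M s _ => ∀ a b, R M s a b → R M s b a) := by
    refine ((((h 0 1).imp (h 1 0)).all 1).all 0).congr ?_
    intro M s v
    simp (disch := omega) only [Function.update_self, Function.update_of_ne]
  have h3 : UD (L := L) (fun M s _ => ∀ a b c, R M s a b → R M s b c → R M s a c) := by
    refine (((((h 0 1).imp ((h 1 2).imp (h 0 2))).all 2).all 1).all 0).congr ?_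
    intro M s v
    simp (disch := omega) only [Function.update_self, Function.update_of_ne]
  exact (h1.and (h2.and h3)).congr fun M s v =>
    ⟨fun ⟨a, b, c⟩ => ⟨a, fun {x y} h => b x y h, fun {x y z} h h' => c x y z h h'⟩,
      fun ⟨a, b, c⟩ => ⟨a, fun x y h => b h, fun x y z h h' => c h h'⟩⟩

end

theorem ud_isPair (k : Kind) : UD (L := LP) (fun M s _ => IsPair k (pr s 0) (pr s 1)) := by
  cases k
  · exact (ud_pr 0).isLin.and (ud_pr 1).isLin
  · exact (ud_pr 0).isLin.and (ud_equivalence (ud_pr 1))
  · exact (ud_equivalence (ud_pr 0)).and (ud_equivalence (ud_pr 1))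

/-- every set `PairSpec k ψ` is a spectrum -/
theorem pairSpec_spec (k : Kind) (ψ : LP.Sentence) :
    ∃ φ : LP.Sentence, Spec φ = PairSpec k ψ := by
  have h0 : UD (L := LP) (fun M s _ => Language.Sentence.Realize M ψ) := by
    refine ⟨Language.Formula.relabel (Empty.elim : Empty → ℕ) ψ, fun M s v => ?_⟩
    rw [Language.Formula.realize_relabel]
    have h1 : v ∘ (Empty.elim : Empty → ℕ) = (default : Empty → M) := Subsingleton.elim _ _
    rw [h1]
    exact Iff.rfl
  obtain ⟨φ, hφ⟩ := ((ud_isPair k).and h0).sentence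
  refine ⟨φ, ?_⟩
  ext n
  refine and_congr_right fun hn => ?_
  refine exists_congr fun M => exists_congr fun s => exists_congr fun _ => ?_
  refine and_congr_right fun hM => ?_
  have : Nonempty M := Fintype.card_pos_iff.1 (by rw [hM]; exact hn)
  rw [hφ]
  constructor
  · intro h
    exact h (Classical.arbitrary M)
  · intro h _
    exact h

/-- the general construction -/
theorem assemble (k : Kind) (T : TileSys) (q : ℕ)
    {U : ∀ (M : Type) (_ : LP.Structure M), M → Prop}
    {R1 R2 : ∀ (M : Type) (_ : LP.Structure M), M → M → Prop}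
    {Ax : ∀ (M : Type) (_ : LP.Structure M), Prop}
    (hU : D1 U) (h1 : D2 R1) (h2 : D2 R2) (hAx : UD (L := LP) (fun M s _ => Ax M s))
    (hA : ∀ (M : Type) (s : LP.Structure M) [Finite M], IsPair k (pr s 0) (pr s 1) → Ax M s →
      (∃ x, U M s x) → WF T (P := {a // U M s a}) (fun a b => R1 M s a b) (fun a b => R2 M s a b)
        (Mlt (fun a b => R1 M s a b) (fun a b => R2 M s a b)) →
      ∃ N, 0 < N ∧ T.Sol N ∧ Nat.card M = N ^ 2 * (KK T + 1) + N * (2 * KK T + 3 + q))
    (hB : ∀ N, 0 < N → T.Sol N → ∃ (M : Type) (s : LP.Structure M) (_ : Fintype M),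
      IsPair k (pr s 0) (pr s 1) ∧ Ax M s ∧
      (∃ x, U M s x) ∧ WF T (P := {a // U M s a}) (fun a b => R1 M s a b) (fun a b => R2 M s a b)
        (Mlt (fun a b => R1 M s a b) (fun a b => R2 M s a b)) ∧
      Nat.card M = N ^ 2 * (KK T + 1) + N * (2 * KK T + 3 + q)) :
    ∃ ψ : LP.Sentence, PairSpec k ψ =
      {n | ∃ N, 0 < N ∧ T.Sol N ∧ n = N ^ 2 * (KK T + 1) + N * (2 * KK T + 3 + q)} := by
  have e1 : DU2 U (fun M s a b => R1 M s a b) := fun i j => UDU.of (h1 i j)
  have e2 : DU2 U (fun M s a b => R2 M s a b) := fun i j => UDU.of (h2 i j)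
  have e3 := UDU.close hU (UDU.wf T hU e1 e2 (m := fun j M s => Mlt (fun a b => R1 M s a b)
    (fun a b => R2 M s a b) j) (fun j => DU2.mlt hU e1 e2 j))
  obtain ⟨ψ, hψ⟩ := (hAx.and e3).sentence
  refine ⟨ψ, ?_⟩
  ext n
  constructor
  · rintro ⟨hn, M, s, _, hM, hp, hr⟩
    have : Nonempty M := Fintype.card_pos_iff.1 (by rw [hM]; exact hn)
    obtain ⟨g1, g2, g3⟩ := (hψ M s).1 hr (Classical.arbitrary M)
    obtain ⟨N, g4, g5, g6⟩ := hA M s hp g1 g2 g3
    refine ⟨N, g4, g5, ?_⟩
    rw [← g6, ← hM, Nat.card_eq_fintype_card]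
  · rintro ⟨N, hN, hs, rfl⟩
    obtain ⟨M, s, _, g1, g2, g3, g4, g5⟩ := hB N hN hs
    refine ⟨by positivity, M, s, inferInstance, ?_, g1, (hψ M s).2 fun _ => ⟨g2, g3, g4⟩⟩
    rw [← g5, Nat.card_eq_fintype_card]

end Pool.Agent.V8H44.PS
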