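import Pool.Agent.V8H44.PS.Ord

/-!
A linear order and an equivalence relation.
-/

set_option autoImplicit false
set_option linter.unusedVariables false

namespace Pool.Agent.V8H44.PS

open FirstOrder Pool.Agent.V8H44.Sp

theorem exists_ze {M : Type} [Finite M] [Nonempty M] {lt : M → M → Prop} (hl : IsLin lt) :
    ∃ z, ze lt z := by
  have hwf : WellFounded (fun x y : M => lt x y) := by
    have : Std.Irrefl (fun x y : M => lt x y) := ⟨fun a => hl.irr a⟩
    have : IsTrans M (fun x y : M => lt x y) := ⟨fun a b c h1 h2 => hl.trans _ _ _ h1 h2⟩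
    exact Finite.wellFounded_of_trans_of_irrefl _
  obtain ⟨z, _, hz⟩ := hwf.has_min Set.univ Set.univ_nonempty
  exact ⟨z, fun y h => hz y trivial h⟩

/-- separators: the class of the first element -/
def SepE {M : Type} (lt E : M → M → Prop) (r : M) : Prop := ∃ z, ze lt z ∧ E z r

theorem pair_le (T : TileSys) : ∃ ψ : LP.Sentence, PairSpec .le ψ =
    {n | ∃ N, 0 < N ∧ T.Sol N ∧ n = N ^ 2 * (KK T + 1) + N * (2 * KK T + 3 + 2)} := by
  have hSep : D1 (L := LP) (fun M s => SepE (pr s 0) (pr s 1)) := by
    intro i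
    refine ((((ud_pr 0).ze (i + 1)).and (ud_pr 1 (i + 1) i)).ex (i + 1)).congr ?_
    intro M s v
    simp (disch := omega) only [Function.update_self, Function.update_of_ne]
    rfl
  have hU : D1 (L := LP) (fun M s a => ¬ SepE (pr s 0) (pr s 1) a) := fun i => (hSep i).not
  refine assemble .le T 2 (U := fun M s a => ¬ SepE (pr s 0) (pr s 1) a)
    (R1 := fun M s => Same (pr s 0) (SepE (pr s 0) (pr s 1)))
    (R2 := fun M s => pr s 1)
    (Ax := fun M s => NoGap (pr s 0) (fun a => ¬ SepE (pr s 0) (pr s 1) a)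
      (SepE (pr s 0) (pr s 1)))
    hU (ud_same (ud_pr 0) hSep) (ud_pr 1) (ud_noGap (ud_pr 0) hU hSep) ?_ ?_
  · rintro M s _ ⟨h1, h2⟩ h3 ⟨x, hx⟩ hW
    have : Nonempty M := ⟨x⟩
    have : Nonempty {a : M // ¬ SepE (pr s 0) (pr s 1) a} := ⟨⟨x, hx⟩⟩
    obtain ⟨z0, hz0⟩ := exists_ze h1
    obtain ⟨g, hg, hg2⟩ := exists_sep h1 (U := fun a => ¬ SepE (pr s 0) (pr s 1) a)
      (S := SepE (pr s 0) (pr s 1)) (by
        intro a ha
        refine ⟨z0, ⟨z0, hz0, h2.refl z0⟩, ?_⟩
        rcases h1.tri z0 a with h | h | h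
        · exact h
        · exact absurd ⟨z0, hz0, h ▸ h2.refl z0⟩ ha
        · exact absurd h (hz0 a)) h3
    let s2 : Setoid {a : M // ¬ SepE (pr s 0) (pr s 1) a} :=
      ⟨fun a b => pr s 1 a b, ⟨fun a => h2.1 a, fun h => h2.2 h, fun h h' => h2.3 h h'⟩⟩
    obtain ⟨N, g1, g2, g3, _, g5⟩ := back' T (g := g) (h := Quotient.mk s2)
      hg Quotient.mk_surjective hg2 (fun a b => Quotient.eq) hW
    refine ⟨N, g1, g2, ?_⟩
    classical
    have e1 : Nat.card M = Nat.card {r // SepE (pr s 0) (pr s 1) r} +
        Nat.card {a : M // ¬ SepE (pr s 0) (pr s 1) a} := by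
      rw [← Nat.card_sum]
      exact (Nat.card_congr (Equiv.sumCompl _)).symm
    rw [e1, g3, g5]
    ring
  · intro N hN hs
    obtain ⟨c, hd, hc⟩ := exists_col T hN hs
    let key : El c ⊕ (Fin N × Bool) → ℕ × ℕ :=
      Sum.elim (fun a => (idx a.1.row, en c a + 1)) (fun r => (idx r, 0))
    let tag : El c ⊕ (Fin N × Bool) → Option (Fin N × Bool) :=
      Sum.elim (fun a => some a.1.col) (fun _ => none)
    have hkey : Function.Injective key := by
      rintro (a | r) (b | r') h
      · have h1 : en c a + 1 = en c b + 1 := congrArg Prod.snd h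
        rw [en_inj (c := c) (a := a) (b := b) (by omega)]
      · have h1 : en c a + 1 = 0 := congrArg Prod.snd h
        omega
      · have h1 : 0 = en c b + 1 := congrArg Prod.snd h
        omega
      · have h1 : idx r = idx r' := congrArg Prod.fst h
        rw [idx_inj h1]
    let s : LP.Structure (El c ⊕ (Fin N × Bool)) :=
      mkP ![fun a b => klt (key a) (key b), fun a b => tag a = tag b]
    have hlin : IsLin (pr s 0) := isLin_key hkey
    let z0 : El c ⊕ (Fin N × Bool) := Sum.inr (⟨0, hN⟩, false)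
    have hz0 : ∀ z, ze (pr s 0) z ↔ z = z0 := by
      have h1 : ze (pr s 0) z0 := by
        intro y h
        have h : klt (key y) (0, 0) := h
        unfold klt at h
        simp only at h
        omega
      intro z
      constructor
      · intro h
        rcases hlin.tri z z0 with h2 | h2 | h2
        · exact absurd h2 (h1 z)
        · exact h2
        · exact absurd h2 (h z0)
      · rintro rfl
        exact h1
    have hsep : ∀ m, SepE (pr s 0) (pr s 1) m ↔ ∃ r, m = Sum.inr r := by
      intro m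
      constructor
      · rintro ⟨z, h1, h2⟩
        rw [hz0] at h1
        rw [h1] at h2
        have h2 : none = tag m := h2
        rcases m with a | r
        · exact absurd h2 (by simp [tag])
        · exact ⟨r, rfl⟩
      · rintro ⟨r, rfl⟩
        exact ⟨z0, (hz0 z0).2 rfl, rfl⟩
    have hU' : ∀ a : El c, ¬ SepE (pr s 0) (pr s 1) (Sum.inl a) := by
      intro a h
      obtain ⟨r, hr⟩ := (hsep _).1 h
      exact Sum.inl_ne_inr hr
    have hsame : ∀ a b : El c, Same (pr s 0) (SepE (pr s 0) (pr s 1)) (Sum.inl a) (Sum.inl b) ↔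
        a.1.row = b.1.row := by
      intro a b
      constructor
      · intro h
        have h1 := (h (Sum.inr a.1.row) ((hsep _).2 ⟨_, rfl⟩)).1 (Or.inr ⟨rfl, Nat.succ_pos _⟩)
        have h2 := (h (Sum.inr b.1.row) ((hsep _).2 ⟨_, rfl⟩)).2 (Or.inr ⟨rfl, Nat.succ_pos _⟩)
        have h1 : klt (idx a.1.row, 0) (idx b.1.row, en c b + 1) := h1
        have h2 : klt (idx b.1.row, 0) (idx a.1.row, en c a + 1) := h2
        unfold klt at h1 h2
        apply idx_inj
        simp only at h1 h2
        omega
      · intro h r hr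
        obtain ⟨r', rfl⟩ := (hsep _).1 hr
        show klt (idx r', 0) (idx a.1.row, en c a + 1) ↔ klt (idx r', 0) (idx b.1.row, en c b + 1)
        rw [h]
        unfold klt
        simp only
        omega
    refine ⟨El c ⊕ (Fin N × Bool), s, inferInstance, ⟨hlin, ?_⟩, ?_, ?_, ?_, ?_⟩
    · exact ⟨fun _ => rfl, fun h => h.symm, fun h h' => h.trans h'⟩
    · intro r hr
      obtain ⟨r', rfl⟩ := (hsep _).1 hr
      obtain ⟨a, ha⟩ := row_surj c r'
      refine ⟨Sum.inl a, hU' a, Or.inr ⟨?_, Nat.succ_pos _⟩, ?_⟩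
      · show idx r' = idx a.1.row
        rw [ha]
      · intro r'' hr'' h1 h2
        obtain ⟨q, rfl⟩ := (hsep _).1 hr''
        have h1 : klt (idx q, 0) (idx a.1.row, en c a + 1) := h1
        have h2 : klt (idx r', 0) (idx q, 0) := h2
        rw [ha] at h1
        unfold klt at h1 h2
        simp only at h1 h2
        omega
    · exact ⟨_, hU' ⟨.lp ⟨0, hN⟩, ⟨0, Pt.mult_pos _⟩⟩⟩
    · let e : El c ≃ {a // ¬ SepE (pr s 0) (pr s 1) a} :=
        Equiv.ofBijective (fun a => ⟨Sum.inl a, hU' a⟩) (by
          constructor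
          · intro a b h
            exact Sum.inl_injective (congrArg Subtype.val h)
          · rintro ⟨m, hm⟩
            rcases m with a | r
            · exact ⟨a, rfl⟩
            · exact absurd ((hsep _).2 ⟨r, rfl⟩) hm)
      refine forth T hd hc e hsame ?_
      intro a b
      show some a.1.col = some b.1.col ↔ _
      exact Option.some_inj
    · rw [Nat.card_eq_fintype_card, Fintype.card_sum, card_El, Fintype.card_prod, Fintype.card_fin,
        Fintype.card_bool]
      ring

end Pool.Agent.V8H44.PS
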