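import Pool.Agent.V8H44.PS.LE

/-!
Two linear orders.
-/

set_option autoImplicit false
set_option linter.unusedVariables false

namespace Pool.Agent.V8H44.PS

open FirstOrder Pool.Agent.V8H44.Sp

/-- separators of the first order: the elements which are not before the first element of the first
order in the second order -/
def SepL {M : Type} (lt lt' : M → M → Prop) (a : M) : Prop := ∀ z, ze lt z → ¬ lt' a z

/-- the elements which are no separators -/
def UL {M : Type} (lt lt' : M → M → Prop) (a : M) : Prop := ¬ SepL lt lt' a ∧ ¬ SepL lt' lt a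

/-- the axioms about the separators -/
def AxL {M : Type} (lt lt' : M → M → Prop) : Prop :=
  (∀ a, SepL lt lt' a → ¬ SepL lt' lt a) ∧ NoGap lt (UL lt lt') (SepL lt lt') ∧
    NoGap lt' (UL lt lt') (SepL lt' lt)

theorem pair_ll (T : TileSys) : ∃ ψ : LP.Sentence, PairSpec .ll ψ =
    {n | ∃ N, 0 < N ∧ T.Sol N ∧ n = N ^ 2 * (KK T + 1) + N * (2 * KK T + 3 + 4)} := by
  have hS1 : D1 (L := LP) (fun M s => SepL (pr s 0) (pr s 1)) := by
    intro i
    refine ((((ud_pr 0).ze (i + 1)).imp (ud_pr 1 i (i + 1)).not).all (i + 1)).congr ?_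
    intro M s v
    simp (disch := omega) only [Function.update_self, Function.update_of_ne]
    rfl
  have hS2 : D1 (L := LP) (fun M s => SepL (pr s 1) (pr s 0)) := by
    intro i
    refine ((((ud_pr 1).ze (i + 1)).imp (ud_pr 0 i (i + 1)).not).all (i + 1)).congr ?_
    intro M s v
    simp (disch := omega) only [Function.update_self, Function.update_of_ne]
    rfl
  have hU : D1 (L := LP) (fun M s => UL (pr s 0) (pr s 1)) := fun i => (hS1 i).not.and (hS2 i).not
  have hAx : UD (L := LP) (fun M s _ => AxL (pr s 0) (pr s 1)) := by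
    have h1 : UD (L := LP) (fun M s _ => ∀ a, SepL (pr s 0) (pr s 1) a →
        ¬ SepL (pr s 1) (pr s 0) a) := by
      refine (((hS1 0).imp (hS2 0).not).all 0).congr ?_
      intro M s v
      simp only [Function.update_self]
    exact h1.and ((ud_noGap (ud_pr 0) hU hS1).and (ud_noGap (ud_pr 1) hU hS2))
  refine assemble .ll T 4 (U := fun M s => UL (pr s 0) (pr s 1))
    (R1 := fun M s => Same (pr s 0) (SepL (pr s 0) (pr s 1)))
    (R2 := fun M s => Same (pr s 1) (SepL (pr s 1) (pr s 0)))
    (Ax := fun M s => AxL (pr s 0) (pr s 1))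
    hU (ud_same (ud_pr 0) hS1) (ud_same (ud_pr 1) hS2) hAx ?_ ?_
  · rintro M s _ ⟨h1, h2⟩ ⟨h3, h4, h5⟩ ⟨x, hx⟩ hW
    have : Nonempty M := ⟨x⟩
    have : Nonempty {a : M // UL (pr s 0) (pr s 1) a} := ⟨⟨x, hx⟩⟩
    have hz : ∀ {lt lt' : M → M → Prop}, IsLin lt → IsLin lt' → ∀ a, ¬ SepL lt lt' a →
        ∃ r, SepL lt lt' r ∧ lt r a := by
      intro lt lt' g1 g2 a ha
      obtain ⟨z0, hz0⟩ := exists_ze g1
      have hz1 : SepL lt lt' z0 := by
        intro z hz h
        rcases g1.tri z z0 with h' | h' | h'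
        · exact hz0 z h'
        · rw [h'] at h
          exact g2.irr _ h
        · exact hz z0 h'
      refine ⟨z0, hz1, ?_⟩
      rcases g1.tri z0 a with h | h | h
      · exact h
      · exact absurd (h ▸ hz1) ha
      · exact absurd h (hz0 a)
    obtain ⟨g, hg, hg2⟩ := exists_sep h1 (U := UL (pr s 0) (pr s 1))
      (S := SepL (pr s 0) (pr s 1)) (fun a ha => hz h1 h2 a ha.1) h4
    obtain ⟨g', hg', hg2'⟩ := exists_sep h2 (U := UL (pr s 0) (pr s 1))
      (S := SepL (pr s 1) (pr s 0)) (fun a ha => hz h2 h1 a ha.2) h5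
    obtain ⟨N, k1, k2, k3, k4, k5⟩ := back' T (g := g) (h := g') hg hg' hg2 hg2' hW
    refine ⟨N, k1, k2, ?_⟩
    classical
    have e1 : Nat.card M = Nat.card {r // SepL (pr s 0) (pr s 1) r} +
        Nat.card {a : M // ¬ SepL (pr s 0) (pr s 1) a} := by
      rw [← Nat.card_sum]
      exact (Nat.card_congr (Equiv.sumCompl _)).symm
    have e2 : Nat.card {a : M // ¬ SepL (pr s 0) (pr s 1) a} =
        Nat.card {r // SepL (pr s 1) (pr s 0) r} + Nat.card {a : M // UL (pr s 0) (pr s 1) a} := by
      rw [← Nat.card_sum]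
      refine Nat.card_congr ((Equiv.sumCompl (fun a : {a : M // ¬ SepL (pr s 0) (pr s 1) a} =>
        SepL (pr s 1) (pr s 0) a.1)).symm.trans (Equiv.sumCongr ?_ ?_))
      · refine (Equiv.subtypeSubtypeEquivSubtypeInter _ (fun a => SepL (pr s 1) (pr s 0) a)).trans
          (Equiv.subtypeEquivRight fun a => ?_)
        exact ⟨fun h => h.2, fun h => ⟨fun h' => h3 a h' h, h⟩⟩
      · exact Equiv.subtypeSubtypeEquivSubtypeInter _ (fun a => ¬ SepL (pr s 1) (pr s 0) a)
    rw [e1, e2, k3, k4, k5]
    ring
  · intro N hN hs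
    obtain ⟨c, hd, hc⟩ := exists_col T hN hs
    let M : Type := El c ⊕ ((Fin N × Bool) ⊕ (Fin N × Bool))
    let key1 : M → ℕ × ℕ :=
      Sum.elim (fun a => (idx a.1.row, en c a + 1))
        (Sum.elim (fun r => (idx r, 0)) (fun r => (2 * N + idx r, 0)))
    let key2 : M → ℕ × ℕ :=
      Sum.elim (fun a => (idx a.1.col, en c a + 1))
        (Sum.elim (fun r => (2 * N + idx r, 0)) (fun r => (idx r, 0)))
    have hkey1 : Function.Injective key1 := by
      rintro (a | r | r) (b | r' | r') h
      · have h1 : en c a + 1 = en c b + 1 := congrArg Prod.snd h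
        rw [en_inj (c := c) (a := a) (b := b) (by omega)]
      · have h1 : en c a + 1 = 0 := congrArg Prod.snd h
        omega
      · have h1 : en c a + 1 = 0 := congrArg Prod.snd h
        omega
      · have h1 : 0 = en c b + 1 := congrArg Prod.snd h
        omega
      · have h1 : idx r = idx r' := congrArg Prod.fst h
        rw [idx_inj h1]
      · have h1 : idx r = 2 * N + idx r' := congrArg Prod.fst h
        have := idx_lt r
        omega
      · have h1 : 0 = en c b + 1 := congrArg Prod.snd h
        omega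
      · have h1 : 2 * N + idx r = idx r' := congrArg Prod.fst h
        have := idx_lt r'
        omega
      · have h1 : 2 * N + idx r = 2 * N + idx r' := congrArg Prod.fst h
        rw [idx_inj (x := r) (y := r') (by omega)]
    have hkey2 : Function.Injective key2 := by
      rintro (a | r | r) (b | r' | r') h
      · have h1 : en c a + 1 = en c b + 1 := congrArg Prod.snd h
        rw [en_inj (c := c) (a := a) (b := b) (by omega)]
      · have h1 : en c a + 1 = 0 := congrArg Prod.snd h
        omega
      · have h1 : en c a + 1 = 0 := congrArg Prod.snd h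
        omega
      · have h1 : 0 = en c b + 1 := congrArg Prod.snd h
        omega
      · have h1 : 2 * N + idx r = 2 * N + idx r' := congrArg Prod.fst h
        rw [idx_inj (x := r) (y := r') (by omega)]
      · have h1 : 2 * N + idx r = idx r' := congrArg Prod.fst h
        have := idx_lt r'
        omega
      · have h1 : 0 = en c b + 1 := congrArg Prod.snd h
        omega
      · have h1 : idx r = 2 * N + idx r' := congrArg Prod.fst h
        have := idx_lt r
        omega
      · have h1 : idx r = idx r' := congrArg Prod.fst h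
        rw [idx_inj h1]
    let s : LP.Structure M :=
      mkP ![fun a b => klt (key1 a) (key1 b), fun a b => klt (key2 a) (key2 b)]
    have hlin1 : IsLin (pr s 0) := isLin_key hkey1
    have hlin2 : IsLin (pr s 1) := isLin_key hkey2
    let z1 : M := Sum.inr (Sum.inl (⟨0, hN⟩, false))
    let z2 : M := Sum.inr (Sum.inr (⟨0, hN⟩, false))
    have hze : ∀ {lt : M → M → Prop}, IsLin lt → ∀ z0, ze lt z0 → ∀ z, ze lt z ↔ z = z0 := by
      intro lt hl z0 h1 z
      constructor
      · intro h
        rcases hl.tri z z0 with h2 | h2 | h2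
        · exact absurd h2 (h1 z)
        · exact h2
        · exact absurd h2 (h z0)
      · rintro rfl
        exact h1
    have hz1 : ∀ z, ze (pr s 0) z ↔ z = z1 := by
      refine hze hlin1 z1 ?_
      intro y h
      have h : klt (key1 y) (0, 0) := h
      unfold klt at h
      simp only at h
      omega
    have hz2 : ∀ z, ze (pr s 1) z ↔ z = z2 := by
      refine hze hlin2 z2 ?_
      intro y h
      have h : klt (key2 y) (0, 0) := h
      unfold klt at h
      simp only at h
      omega
    have hsep1 : ∀ m, SepL (pr s 0) (pr s 1) m ↔ ∃ r, m = Sum.inr (Sum.inl r) := by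
      intro m
      constructor
      · intro h
        have h1 := h z1 ((hz1 z1).2 rfl)
        have h1 : ¬ klt (key2 m) (2 * N, 0) := h1
        rcases m with a | r | r
        · exact absurd (Or.inl (idx_lt a.1.col)) h1
        · exact ⟨r, rfl⟩
        · exact absurd (Or.inl (idx_lt r)) h1
      · rintro ⟨r, rfl⟩ z hz
        rw [hz1] at hz
        rw [hz]
        intro h1
        have h1 : klt (2 * N + idx r, 0) (2 * N, 0) := h1
        unfold klt at h1
        simp only at h1
        omega
    have hsep2 : ∀ m, SepL (pr s 1) (pr s 0) m ↔ ∃ r, m = Sum.inr (Sum.inr r) := by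
      intro m
      constructor
      · intro h
        have h1 := h z2 ((hz2 z2).2 rfl)
        have h1 : ¬ klt (key1 m) (2 * N, 0) := h1
        rcases m with a | r | r
        · exact absurd (Or.inl (idx_lt a.1.row)) h1
        · exact absurd (Or.inl (idx_lt r)) h1
        · exact ⟨r, rfl⟩
      · rintro ⟨r, rfl⟩ z hz
        rw [hz2] at hz
        rw [hz]
        intro h1
        have h1 : klt (2 * N + idx r, 0) (2 * N, 0) := h1
        unfold klt at h1
        simp only at h1
        omega
    have hU' : ∀ m, UL (pr s 0) (pr s 1) m ↔ ∃ a, m = Sum.inl a := by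
      intro m
      unfold UL
      rw [hsep1, hsep2]
      rcases m with a | r | r
      · refine ⟨fun _ => ⟨a, rfl⟩, fun _ => ⟨?_, ?_⟩⟩ <;> rintro ⟨r, hr⟩ <;> cases hr
      · refine ⟨fun h => absurd ⟨r, rfl⟩ h.1, ?_⟩
        rintro ⟨a, ha⟩
        cases ha
      · refine ⟨fun h => absurd ⟨r, rfl⟩ h.2, ?_⟩
        rintro ⟨a, ha⟩
        cases ha
    have hcmp : ∀ (x y p q : ℕ), (klt (x, 0) (y, p + 1) ↔ x ≤ y) := by
      intro x y p q
      unfold klt
      simp only
      omega
    have hsame1 : ∀ a b : El c, Same (pr s 0) (SepL (pr s 0) (pr s 1)) (Sum.inl a) (Sum.inl b) ↔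
        a.1.row = b.1.row := by
      intro a b
      have key : ∀ r a', pr s 0 (Sum.inr (Sum.inl r)) (Sum.inl a') ↔ idx r ≤ idx a'.1.row :=
        fun r a' => hcmp _ _ _ 0
      constructor
      · intro h
        have h1 := h _ ((hsep1 _).2 ⟨a.1.row, rfl⟩)
        have h2 := h _ ((hsep1 _).2 ⟨b.1.row, rfl⟩)
        rw [key, key] at h1 h2
        apply idx_inj
        omega
      · intro h r hr
        obtain ⟨r', rfl⟩ := (hsep1 _).1 hr
        rw [key, key, h]
    have hsame2 : ∀ a b : El c, Same (pr s 1) (SepL (pr s 1) (pr s 0)) (Sum.inl a) (Sum.inl b) ↔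
        a.1.col = b.1.col := by
      intro a b
      have key : ∀ r a', pr s 1 (Sum.inr (Sum.inr r)) (Sum.inl a') ↔ idx r ≤ idx a'.1.col :=
        fun r a' => hcmp _ _ _ 0
      constructor
      · intro h
        have h1 := h _ ((hsep2 _).2 ⟨a.1.col, rfl⟩)
        have h2 := h _ ((hsep2 _).2 ⟨b.1.col, rfl⟩)
        rw [key, key] at h1 h2
        apply idx_inj
        omega
      · intro h r hr
        obtain ⟨r', rfl⟩ := (hsep2 _).1 hr
        rw [key, key, h]
    refine ⟨M, s, inferInstanceAs (Fintype (El c ⊕ ((Fin N × Bool) ⊕ (Fin N × Bool)))),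
      ⟨hlin1, hlin2⟩, ⟨?_, ?_, ?_⟩, ?_, ?_, ?_⟩
    · intro m h1 h2
      obtain ⟨r, rfl⟩ := (hsep1 _).1 h1
      obtain ⟨r', h3⟩ := (hsep2 _).1 h2
      cases h3
    · intro r hr
      obtain ⟨r', rfl⟩ := (hsep1 _).1 hr
      obtain ⟨a, ha⟩ := row_surj c r'
      refine ⟨Sum.inl a, (hU' _).2 ⟨a, rfl⟩, (hcmp _ _ _ 0).2 (by rw [ha]), ?_⟩
      intro r'' hr'' h1 h2
      obtain ⟨q, rfl⟩ := (hsep1 _).1 hr''
      have h1 := (hcmp _ _ _ 0).1 h1
      have h2 : klt (idx r', 0) (idx q, 0) := h2
      rw [ha] at h1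
      unfold klt at h2
      simp only at h2
      omega
    · intro r hr
      obtain ⟨r', rfl⟩ := (hsep2 _).1 hr
      obtain ⟨a, ha⟩ := col_surj c r'
      refine ⟨Sum.inl a, (hU' _).2 ⟨a, rfl⟩, (hcmp _ _ _ 0).2 (by rw [ha]), ?_⟩
      intro r'' hr'' h1 h2
      obtain ⟨q, rfl⟩ := (hsep2 _).1 hr''
      have h1 := (hcmp _ _ _ 0).1 h1
      have h2 : klt (idx r', 0) (idx q, 0) := h2
      rw [ha] at h1
      unfold klt at h2
      simp only at h2
      omega
    · exact ⟨Sum.inl ⟨.lp ⟨0, hN⟩, ⟨0, Pt.mult_pos _⟩⟩, (hU' _).2 ⟨_, rfl⟩⟩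
    · let e : El c ≃ {a // UL (pr s 0) (pr s 1) a} :=
        Equiv.ofBijective (fun a => ⟨Sum.inl a, (hU' _).2 ⟨a, rfl⟩⟩) (by
          constructor
          · intro a b h
            exact Sum.inl_injective (congrArg Subtype.val h)
          · rintro ⟨m, hm⟩
            obtain ⟨a, rfl⟩ := (hU' _).1 hm
            exact ⟨a, rfl⟩)
      exact forth T hd hc e hsame1 hsame2
    · show Nat.card (El c ⊕ ((Fin N × Bool) ⊕ (Fin N × Bool))) = _
      rw [Nat.card_eq_fintype_card, Fintype.card_sum, Fintype.card_sum, card_El,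
        Fintype.card_prod, Fintype.card_fin, Fintype.card_bool]
      ring

end Pool.Agent.V8H44.PS
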