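import Pool.Agent.V8H44.Sp.Pref

/-!
Matrices of multiplicities which encode the tilings of a square.
-/

set_option autoImplicit false

namespace Pool.Agent.V8H44.PS

open Pool.Agent.V8H44.Sp

/-- the constraints `ConP` with an arbitrary relation in place of equality -/
structure ConE (T : TileSys) {P : Type} (Q : P → P → Prop) (O : P → Prop) (S Lt : P → P → Prop)
    (K : T.C → P → P → Prop) (x y z : P) : Prop where
  s1 : S x y
  s2 : S x z → Q z y
  s3 : S z y → Q z x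
  o1 : O x ∧ O z → Q x z
  l1 : ¬ Lt x x
  l2 : O y → ¬ Lt z y
  l3 : ¬ O y → (Lt z y ↔ (Lt z x ∨ Q z x))
  k1 : ∃ c, K c x z
  k2 : ∀ c, ∀ c', K c x z → K c' x z → c = c'
  h1 : ¬ O y → ∀ c, ∀ c', K c x z → K c' y z → T.H c c'
  h2 : ¬ O y → ∀ c, ∀ c', K c z x → K c' z y → T.V c c'
  b1 : O x → ∀ c, K c x z → T.Lf c
  b2 : O y → ∀ c, K c x z → T.Rt c
  b3 : O x → ∀ c, K c z x → T.Bt c
  b4 : O y → ∀ c, K c z x → T.Tp c

/-- colours of the entries of a matrix: tile, successor, order, diagonal, origin -/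
structure Lam (T : TileSys) where
  /-- tile -/
  t : T.C
  /-- successor -/
  s : Bool
  /-- order -/
  l : Bool
  /-- diagonal -/
  d : Bool
  /-- origin -/
  o : Bool

theorem Lam.finite (T : TileSys) : Finite (Lam T) := by
  have := T.fin
  refine Finite.of_injective (β := T.C × Bool × Bool × Bool × Bool)
    (fun c => (c.t, c.s, c.l, c.d, c.o)) ?_
  rintro ⟨t, s, l, d, o⟩ ⟨t', s', l', d', o'⟩ h
  simp only [Prod.mk.injEq] at h
  obtain ⟨rfl, rfl, rfl, rfl, rfl⟩ := h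
  rfl

/-- number of colours -/
noncomputable def KK (T : TileSys) : ℕ := Nat.card (Lam T)

/-- the multiplicity of a colour -/
noncomputable def code {T : TileSys} (c : Lam T) : ℕ :=
  have := Lam.finite T
  ((Finite.equivFin (Lam T)) c : ℕ) + 1

theorem code_pos {T : TileSys} (c : Lam T) : 0 < code c := Nat.succ_pos _

theorem code_le {T : TileSys} (c : Lam T) : code c ≤ KK T := by
  have := Lam.finite T
  exact ((Finite.equivFin (Lam T)) c).2

theorem code_inj {T : TileSys} {c c' : Lam T} (h : code c = code c') : c = c' := by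
  have := Lam.finite T
  apply (Finite.equivFin (Lam T)).injective
  apply Fin.ext
  exact Nat.succ_injective h

section

variable (T : TileSys) {P : Type} (R1 R2 : P → P → Prop) (m : ℕ → P → Prop)

/-- large cell -/
def Bg (a : P) : Prop := m (KK T + 1) a ∨ m (KK T + 2) a

/-- diagonal cell -/
def Dg (a : P) : Prop := (∃ c : Lam T, c.d = true ∧ m (code c) a) ∧ ∃ p, R1 a p ∧ m (KK T + 1) p

/-- the entry in the row of `x` and the column of `z` has the colour `c` -/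
def En (c : Lam T) (x z : P) : Prop := ∃ p, R1 x p ∧ R2 z p ∧ m (code c) p

/-- the set of cells encodes a tiling -/
structure WF : Prop where
  ub : ∀ a, ∃ j : Fin (KK T + 3), m j a
  big : ∀ a, ∃ b, R1 a b ∧ Bg T m b
  bu : ∀ a b, R1 a b → Bg T m a → Bg T m b → R2 a b
  lp : ∀ a, m (KK T + 1) a → ∃ b, R2 a b ∧ m (KK T + 2) b
  lq : ∀ a, m (KK T + 2) a → ∃ b, R2 a b ∧ m (KK T + 1) b
  lpu : ∀ a b, R2 a b → m (KK T + 1) a → m (KK T + 1) b → R1 a b
  lqu : ∀ a b, R2 a b → m (KK T + 2) a → m (KK T + 2) b → R1 a b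
  lb : ∀ a b, R2 a b → Bg T m a → Bg T m b
  cr : ∀ a b, ¬ Bg T m b → ∃ c, R1 a c ∧ R2 c b
  sm : ∀ a b, ¬ Bg T m a → R2 a b → (∃ p, R1 a p ∧ m (KK T + 1) p ∧ ∃ q, R2 p q ∧
    m (KK T + 2) q ∧ R1 q b) → ∀ j : Fin (KK T + 2), m j a → m (KK T + 1 - j) b
  dr : ∀ p, m (KK T + 1) p → ∃ d, R1 p d ∧ Dg T R1 m d
  dru : ∀ d d', R1 d d' → Dg T R1 m d → Dg T R1 m d' → R2 d d'
  dc : ∀ b, ¬ Bg T m b → ∃ d, R2 d b ∧ Dg T R1 m d
  dcu : ∀ d d', R2 d d' → Dg T R1 m d → Dg T R1 m d' → R1 d d'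
  con : ∀ x, Dg T R1 m x → ∃ y, Dg T R1 m y ∧ ∀ z, Dg T R1 m z →
    ConE T (fun a b => R1 a b ∧ R2 a b) (fun a => ∃ c : Lam T, c.o = true ∧ m (code c) a)
      (fun a b => ∃ c : Lam T, c.s = true ∧ En T R1 R2 m c a b)
      (fun a b => ∃ c : Lam T, c.l = true ∧ En T R1 R2 m c a b)
      (fun t a b => ∃ c : Lam T, c.t = t ∧ En T R1 R2 m c a b) x y z

end

section

variable {T : TileSys} {P B : Type} {R1 R2 : P → P → Prop} {m : ℕ → P → Prop}
  {R1' R2' : B → B → Prop} {m' : ℕ → B → Prop}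

theorem conE_congr {f : P → B} {Q : P → P → Prop} {O : P → Prop} {S Lt : P → P → Prop}
    {K : T.C → P → P → Prop} {Q' : B → B → Prop} {O' : B → Prop} {S' Lt' : B → B → Prop}
    {K' : T.C → B → B → Prop} (hQ : ∀ a b, Q' (f a) (f b) ↔ Q a b) (hO : ∀ a, O' (f a) ↔ O a)
    (hS : ∀ a b, S' (f a) (f b) ↔ S a b) (hL : ∀ a b, Lt' (f a) (f b) ↔ Lt a b)
    (hK : ∀ t a b, K' t (f a) (f b) ↔ K t a b) (x y z : P) :
    ConE T Q' O' S' Lt' K' (f x) (f y) (f z) ↔ ConE T Q O S Lt K x y z := by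
  constructor
  · rintro ⟨s1, s2, s3, o1, l1, l2, l3, k1, k2, h1, h2, b1, b2, b3, b4⟩
    simp only [hQ, hO, hS, hL, hK] at s1 s2 s3 o1 l1 l2 l3 k1 k2 h1 h2 b1 b2 b3 b4
    exact ⟨s1, s2, s3, o1, l1, l2, l3, k1, k2, h1, h2, b1, b2, b3, b4⟩
  · rintro ⟨s1, s2, s3, o1, l1, l2, l3, k1, k2, h1, h2, b1, b2, b3, b4⟩
    refine ⟨?_, ?_, ?_, ?_, ?_, ?_, ?_, ?_, ?_, ?_, ?_, ?_, ?_, ?_, ?_⟩ <;>
      simp only [hQ, hO, hS, hL, hK] <;> assumption

/-- the property depends only on the cells -/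
theorem WF_iff {f : P → B} (hf : Function.Surjective f) (h1 : ∀ a b, R1' (f a) (f b) ↔ R1 a b)
    (h2 : ∀ a b, R2' (f a) (f b) ↔ R2 a b) (hm : ∀ j a, m' j (f a) ↔ m j a) :
    WF T R1' R2' m' ↔ WF T R1 R2 m := by
  have hB : ∀ a, Bg T m' (f a) ↔ Bg T m a := fun a => by
    unfold Bg
    rw [hm, hm]
  have hD : ∀ a, Dg T R1' m' (f a) ↔ Dg T R1 m a := fun a => by
    unfold Dg
    simp only [hf.exists, hm, h1]
  have hE : ∀ c a b, En T R1' R2' m' c (f a) (f b) ↔ En T R1 R2 m c a b := fun c a b => by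
    unfold En
    simp only [hf.exists, hm, h1, h2]
  have hC : ∀ x y z, ConE T (fun a b => R1' a b ∧ R2' a b)
      (fun a => ∃ c : Lam T, c.o = true ∧ m' (code c) a)
      (fun a b => ∃ c : Lam T, c.s = true ∧ En T R1' R2' m' c a b)
      (fun a b => ∃ c : Lam T, c.l = true ∧ En T R1' R2' m' c a b)
      (fun t a b => ∃ c : Lam T, c.t = t ∧ En T R1' R2' m' c a b) (f x) (f y) (f z) ↔
      ConE T (fun a b => R1 a b ∧ R2 a b)
      (fun a => ∃ c : Lam T, c.o = true ∧ m (code c) a)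
      (fun a b => ∃ c : Lam T, c.s = true ∧ En T R1 R2 m c a b)
      (fun a b => ∃ c : Lam T, c.l = true ∧ En T R1 R2 m c a b)
      (fun t a b => ∃ c : Lam T, c.t = t ∧ En T R1 R2 m c a b) x y z := by
    intro x y z
    refine conE_congr ?_ ?_ ?_ ?_ ?_ x y z
    · intro a b; rw [h1, h2]
    · intro a; simp only [hm]
    · intro a b; simp only [hE]
    · intro a b; simp only [hE]
    · intro t a b; simp only [hE]
  constructor
  · rintro ⟨g1, g2, g3, g4, g5, g6, g7, g8, g9, g10, g11, g12, g13, g14, g15⟩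
    simp only [hf.forall, hf.exists, h1, h2, hm, hB] at g1 g2 g3 g4 g5 g6 g7 g8
    simp only [hf.forall, hf.exists, h1, h2, hm, hB, hD, hC] at g9 g10 g11 g12 g13 g14 g15
    exact ⟨g1, g2, g3, g4, g5, g6, g7, g8, g9, g10, g11, g12, g13, g14, g15⟩
  · rintro ⟨g1, g2, g3, g4, g5, g6, g7, g8, g9, g10, g11, g12, g13, g14, g15⟩
    refine ⟨?_, ?_, ?_, ?_, ?_, ?_, ?_, ?_, ?_, ?_, ?_, ?_, ?_, ?_, ?_⟩ <;>
      simp only [hf.forall, hf.exists, h1, h2, hm, hB, hD, hC] <;> assumption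

end

end Pool.Agent.V8H44.PS
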