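import Pool.Agent.V8H44.PS.Mat

/-!
From a matrix of multiplicities to a tiling.
-/

set_option autoImplicit false

namespace Pool.Agent.V8H44.PS

open Pool.Agent.V8H44.Sp

section cells

variable {X Y : Type} (sz : X → Y → ℕ)

/-- the nonempty cells of a matrix -/
abbrev Cell : Type := {c : X × Y // 0 < sz c.1 c.2}

variable {sz}

theorem back_cells (T : TileSys) [Fintype X] [Fintype Y] [Nonempty X]
    (hx : ∀ x, ∃ y, 0 < sz x y) (hy : ∀ y, ∃ x, 0 < sz x y)
    (h : WF T (P := Cell sz) (fun a b => a.1.1 = b.1.1) (fun a b => a.1.2 = b.1.2)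
      (fun j a => sz a.1.1 a.1.2 = j)) :
    ∃ N, 0 < N ∧ T.Sol N ∧ Fintype.card X = 2 * N ∧ Fintype.card Y = 2 * N ∧
      ∑ x, ∑ y, sz x y = N ^ 2 * (KK T + 1) + N * (2 * KK T + 3) := by
  classical
  -- big cells
  have big : ∀ x, ∃ y, sz x y = KK T + 1 ∨ sz x y = KK T + 2 := by
    intro x
    obtain ⟨y, hxy⟩ := hx x
    obtain ⟨b, hb1, hb2⟩ := h.big ⟨(x, y), hxy⟩
    have e : x = b.1.1 := hb1
    refine ⟨b.1.2, ?_⟩
    rw [e]
    exact hb2
  choose bc hbc using big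
  have hbu : ∀ x y, sz x y = KK T + 1 ∨ sz x y = KK T + 2 → y = bc x := by
    intro x y hxy
    exact h.bu ⟨(x, y), by show 0 < sz x y; omega⟩ ⟨(x, bc x), by
      have := hbc x
      show 0 < sz x (bc x)
      omega⟩ rfl hxy (hbc x)
  have hub : ∀ x y, sz x y ≤ KK T + 2 := by
    intro x y
    by_cases h0 : 0 < sz x y
    · obtain ⟨j, hj⟩ := h.ub ⟨(x, y), h0⟩
      have hj : sz x y = j := hj
      have := j.2
      omega
    · omega
  have hlp : ∀ x, sz x (bc x) = KK T + 1 → ∃ x', sz x' (bc x) = KK T + 2 := by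
    intro x hx1
    obtain ⟨b, hb1, hb2⟩ := h.lp ⟨(x, bc x), by show 0 < sz x (bc x); omega⟩ hx1
    have e : bc x = b.1.2 := hb1
    refine ⟨b.1.1, ?_⟩
    rw [e]
    exact hb2
  have hlq : ∀ x, sz x (bc x) = KK T + 2 → ∃ x', sz x' (bc x) = KK T + 1 := by
    intro x hx1
    obtain ⟨b, hb1, hb2⟩ := h.lq ⟨(x, bc x), by show 0 < sz x (bc x); omega⟩ hx1
    have e : bc x = b.1.2 := hb1
    refine ⟨b.1.1, ?_⟩
    rw [e]
    exact hb2
  have hlpu : ∀ x x' y, sz x y = KK T + 1 → sz x' y = KK T + 1 → x = x' := by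
    intro x x' y h1 h2
    exact h.lpu ⟨(x, y), by show 0 < sz x y; omega⟩ ⟨(x', y), by show 0 < sz x' y; omega⟩ rfl h1 h2
  have hlqu : ∀ x x' y, sz x y = KK T + 2 → sz x' y = KK T + 2 → x = x' := by
    intro x x' y h1 h2
    exact h.lqu ⟨(x, y), by show 0 < sz x y; omega⟩ ⟨(x', y), by show 0 < sz x' y; omega⟩ rfl h1 h2
  have hlb : ∀ x x', 0 < sz x' (bc x) → bc x' = bc x := by
    intro x x' h0
    have h1 : 0 < sz x (bc x) := by
      have := hbc x
      omega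
    exact (hbu _ _ (h.lb ⟨(x, bc x), h1⟩ ⟨(x', bc x), h0⟩ rfl (hbc x))).symm
  have hcr : ∀ x x' y, 0 < sz x' y → y ≠ bc x' → 0 < sz x y := by
    intro x x' y h0 h1
    obtain ⟨y', hy'⟩ := hx x
    obtain ⟨c, hc1, hc2⟩ := h.cr ⟨(x, y'), hy'⟩ ⟨(x', y), h0⟩ (fun hb => h1 (hbu _ _ hb))
    have hc1 : x = c.1.1 := hc1
    have hc2 : c.1.2 = y := hc2
    rw [hc1, ← hc2]
    exact c.2
  have hsm : ∀ x x' y, 0 < sz x y → y ≠ bc x → 0 < sz x' y → sz x (bc x) = KK T + 1 →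
      sz x' (bc x) = KK T + 2 → sz x y + sz x' y = KK T + 1 := by
    intro x x' y h0 h1 h2 h3 h4
    have h5 : sz x y ≤ KK T := by
      have h6 : ¬ (sz x y = KK T + 1 ∨ sz x y = KK T + 2) := fun h6 => h1 (hbu _ _ h6)
      have := hub x y
      omega
    have := h.sm ⟨(x, y), h0⟩ ⟨(x', y), h2⟩ (fun hb => h1 (hbu _ _ hb)) rfl
      ⟨⟨(x, bc x), by show 0 < sz x (bc x); omega⟩, rfl, h3,
        ⟨(x', bc x), by show 0 < sz x' (bc x); omega⟩, rfl, h4, rfl⟩ ⟨sz x y, by omega⟩ rfl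
    have this : sz x' y = KK T + 1 - sz x y := this
    omega
  -- diagonal cells
  let DD : X → Y → Prop := fun x y => (∃ c : Lam T, c.d = true ∧ sz x y = code c) ∧
    sz x (bc x) = KK T + 1
  have hDD : ∀ a : Cell sz, Dg T (fun a b : Cell sz => a.1.1 = b.1.1)
      (fun j a => sz a.1.1 a.1.2 = j) a ↔ DD a.1.1 a.1.2 := by
    intro a
    constructor
    · rintro ⟨h1, p, h2, h3⟩
      refine ⟨h1, ?_⟩
      have h2 : a.1.1 = p.1.1 := h2
      have h3 : sz p.1.1 p.1.2 = KK T + 1 := h3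
      rw [← h2] at h3
      rw [← hbu _ _ (Or.inl h3)]
      exact h3
    · rintro ⟨h1, h2⟩
      exact ⟨h1, ⟨(a.1.1, bc a.1.1), by show 0 < sz a.1.1 (bc a.1.1); omega⟩, rfl, h2⟩
  have hDpos : ∀ x y, DD x y → 0 < sz x y := by
    rintro x y ⟨⟨c, _, hc⟩, _⟩
    rw [hc]
    exact code_pos c
  have hDsm : ∀ x y, DD x y → y ≠ bc x := by
    rintro x y ⟨⟨c, _, hc⟩, h1⟩ rfl
    have := code_le c
    omega
  have hdr : ∀ x, sz x (bc x) = KK T + 1 → ∃ y, DD x y := by
    intro x hx1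
    obtain ⟨d, hd1, hd2⟩ := h.dr ⟨(x, bc x), by show 0 < sz x (bc x); omega⟩ hx1
    have e : x = d.1.1 := hd1
    refine ⟨d.1.2, ?_⟩
    rw [e]
    exact (hDD d).1 hd2
  have hdru : ∀ x y y', DD x y → DD x y' → y = y' := by
    intro x y y' h1 h2
    exact h.dru ⟨(x, y), hDpos _ _ h1⟩ ⟨(x, y'), hDpos _ _ h2⟩ rfl ((hDD _).2 h1) ((hDD _).2 h2)
  have hdcu : ∀ x x' y, DD x y → DD x' y → x = x' := by
    intro x x' y h1 h2
    exact h.dcu ⟨(x, y), hDpos _ _ h1⟩ ⟨(x', y), hDpos _ _ h2⟩ rfl ((hDD _).2 h1) ((hDD _).2 h2)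
  have hdc : ∀ x y, 0 < sz x y → y ≠ bc x → ∃ x', DD x' y := by
    intro x y h0 h1
    obtain ⟨d, hd1, hd2⟩ := h.dc ⟨(x, y), h0⟩ (fun hb => h1 (hbu _ _ hb))
    have e : d.1.2 = y := hd1
    refine ⟨d.1.1, ?_⟩
    rw [← e]
    exact (hDD d).1 hd2
  let V : Type := {v : X × Y // DD v.1 v.2}
  have hmate : ∀ v : V, ∃ x', sz x' (bc v.1.1) = KK T + 2 := fun v => hlp _ v.2.2
  choose mt hmt using hmate
  have hbmt : ∀ v : V, bc (mt v) = bc v.1.1 := fun v => (hbu _ _ (Or.inr (hmt v))).symm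
  let fx : V ⊕ V → X := Sum.elim (fun v => v.1.1) mt
  let fy : V ⊕ V → Y := Sum.elim (fun v => v.1.2) (fun v => bc v.1.1)
  have hVx : ∀ v w : V, v.1.1 = w.1.1 → v = w := by
    intro v w hvw
    apply Subtype.ext
    refine Prod.ext hvw ?_
    refine hdru v.1.1 _ _ v.2 ?_
    rw [hvw]
    exact w.2
  have hVy : ∀ v w : V, v.1.2 = w.1.2 → v = w := by
    intro v w hvw
    apply Subtype.ext
    refine Prod.ext ?_ hvw
    refine hdcu _ _ v.1.2 v.2 ?_
    rw [hvw]
    exact w.2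
  have hVb : ∀ v w : V, bc v.1.1 = bc w.1.1 → v = w := by
    intro v w hvw
    apply hVx
    refine hlpu _ _ (bc v.1.1) v.2.2 ?_
    rw [hvw]
    exact w.2.2
  have hfx : Function.Bijective fx := by
    constructor
    · rintro (v | v) (w | w) hvw
      · have hvw : v.1.1 = w.1.1 := hvw
        rw [hVx v w hvw]
      · exfalso
        have hvw : v.1.1 = mt w := hvw
        have h1 := v.2.2
        have h2 := hmt w
        rw [← hbmt w, ← hvw] at h2
        omega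
      · exfalso
        have hvw : mt v = w.1.1 := hvw
        have h1 := w.2.2
        have h2 := hmt v
        rw [← hbmt v, hvw] at h2
        omega
      · have hvw : mt v = mt w := hvw
        have h1 : bc v.1.1 = bc w.1.1 := by rw [← hbmt v, ← hbmt w, hvw]
        rw [hVb v w h1]
    · intro x
      rcases hbc x with h1 | h1
      · obtain ⟨y, hy1⟩ := hdr x h1
        exact ⟨Sum.inl ⟨(x, y), hy1⟩, rfl⟩
      · obtain ⟨x', hx'⟩ := hlq x h1
        have h2 : bc x = bc x' := hbu _ _ (Or.inl hx')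
        rw [h2] at hx'
        obtain ⟨y, hy1⟩ := hdr x' hx'
        refine ⟨Sum.inr ⟨(x', y), hy1⟩, ?_⟩
        have h3 := hmt ⟨(x', y), hy1⟩
        have h3 : sz (mt ⟨(x', y), hy1⟩) (bc x') = KK T + 2 := h3
        rw [← h2] at h3
        exact hlqu _ _ _ h3 h1
  have hfy : Function.Bijective fy := by
    constructor
    · rintro (v | v) (w | w) hvw
      · have hvw : v.1.2 = w.1.2 := hvw
        rw [hVy v w hvw]
      · exfalso
        have hvw : v.1.2 = bc w.1.1 := hvw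
        have h1 := hDpos _ _ v.2
        rw [hvw] at h1
        have h2 := hlb w.1.1 v.1.1 h1
        exact hDsm _ _ v.2 (hvw.trans h2.symm)
      · exfalso
        have hvw : bc v.1.1 = w.1.2 := hvw
        have h1 := hDpos _ _ w.2
        rw [← hvw] at h1
        have h2 := hlb v.1.1 w.1.1 h1
        exact hDsm _ _ w.2 (hvw.symm.trans h2.symm)
      · have hvw : bc v.1.1 = bc w.1.1 := hvw
        rw [hVb v w hvw]
    · intro y
      obtain ⟨x, hxy⟩ := hy y
      by_cases h1 : y = bc x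
      · rcases hbc x with h2 | h2
        · obtain ⟨y', hy1⟩ := hdr x h2
          exact ⟨Sum.inr ⟨(x, y'), hy1⟩, h1.symm⟩
        · obtain ⟨x', hx'⟩ := hlq x h2
          have h3 : bc x = bc x' := hbu _ _ (Or.inl hx')
          rw [h3] at hx'
          obtain ⟨y', hy1⟩ := hdr x' hx'
          exact ⟨Sum.inr ⟨(x', y'), hy1⟩, (h1.trans h3).symm⟩
      · obtain ⟨x', hx'⟩ := hdc x y hxy h1
        exact ⟨Sum.inl ⟨(x', y), hx'⟩, rfl⟩
  -- small columns
  have hsc : ∀ (x : X) (w : V), w.1.2 ≠ bc x := by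
    intro x w hw
    have h1 := hDpos _ _ w.2
    rw [hw] at h1
    have h2 := hlb x w.1.1 h1
    exact hDsm _ _ w.2 (hw.trans h2.symm)
  have hpos : ∀ (x : X) (w : V), 0 < sz x w.1.2 := fun x w =>
    hcr x w.1.1 w.1.2 (hDpos _ _ w.2) (hDsm _ _ w.2)
  have hs1 : ∀ v w : V, sz v.1.1 w.1.2 + sz (mt v) w.1.2 = KK T + 1 := fun v w =>
    hsm _ _ _ (hpos _ _) (hsc _ _) (hpos _ _) v.2.2 (hmt v)
  have hs2 : ∀ v w : V, sz v.1.1 (bc w.1.1) = if v = w then KK T + 1 else 0 := by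
    intro v w
    split_ifs with hvw
    · rw [← hvw]
      exact v.2.2
    · by_contra h0
      exact hvw (hVb _ _ (hlb w.1.1 v.1.1 (Nat.pos_of_ne_zero h0)))
  have hs3 : ∀ v w : V, sz (mt v) (bc w.1.1) = if v = w then KK T + 2 else 0 := by
    intro v w
    split_ifs with hvw
    · rw [← hvw]
      exact hmt v
    · by_contra h0
      have h1 := hlb w.1.1 (mt v) (Nat.pos_of_ne_zero h0)
      rw [hbmt] at h1
      exact hvw (hVb _ _ h1)
  have hVne : Nonempty V := by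
    obtain ⟨x⟩ := ‹Nonempty X›
    obtain ⟨v, _⟩ := hfx.2 x
    rcases v with v | v <;> exact ⟨v⟩
  refine ⟨Fintype.card V, Fintype.card_pos, ?_, ?_, ?_, ?_⟩
  · refine tiling_of_con T (M := V) (O := fun v => ∃ c : Lam T, c.o = true ∧
        sz v.1.1 v.1.2 = code c)
      (S := fun v w => ∃ c : Lam T, c.s = true ∧ sz v.1.1 w.1.2 = code c)
      (Lt := fun v w => ∃ c : Lam T, c.l = true ∧ sz v.1.1 w.1.2 = code c)
      (K := fun t v w => ∃ c : Lam T, c.t = t ∧ sz v.1.1 w.1.2 = code c) ?_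
    intro x
    obtain ⟨y, hy1, hy2⟩ := h.con ⟨(x.1.1, x.1.2), hDpos _ _ x.2⟩ ((hDD _).2 x.2)
    have hy3 := (hDD y).1 hy1
    refine ⟨⟨(y.1.1, y.1.2), hy3⟩, fun z => ?_⟩
    have hz := hy2 ⟨(z.1.1, z.1.2), hDpos _ _ z.2⟩ ((hDD _).2 z.2)
    have hEn : ∀ (c : Lam T) (a b : Cell sz), En T (fun a b : Cell sz => a.1.1 = b.1.1)
        (fun a b => a.1.2 = b.1.2) (fun j a => sz a.1.1 a.1.2 = j) c a b ↔
        sz a.1.1 b.1.2 = code c := by
      intro c a b
      constructor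
      · rintro ⟨p, h1, h2, h3⟩
        have h1 : a.1.1 = p.1.1 := h1
        have h2 : b.1.2 = p.1.2 := h2
        rw [h1, h2]
        exact h3
      · intro h1
        exact ⟨⟨(a.1.1, b.1.2), by show 0 < sz a.1.1 b.1.2; rw [h1]; exact code_pos c⟩, rfl, rfl,
          h1⟩
    simp only [hEn] at hz
    have ext : ∀ a b : V, a.1.1 = b.1.1 ∧ a.1.2 = b.1.2 → a = b := fun a b h => hVx a b h.1
    have ext' : ∀ a b : V, a = b → a.1.1 = b.1.1 ∧ a.1.2 = b.1.2 := by
      rintro a b rfl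
      exact ⟨rfl, rfl⟩
    obtain ⟨s1, s2, s3, o1, l1, l2, l3, k1, k2, h1, h2, b1, b2, b3, b4⟩ := hz
    refine ⟨s1, fun h => ext _ _ (s2 h), fun h => ext _ _ (s3 h), fun h => ext _ _ (o1 h), l1,
      l2, fun h => (l3 h).trans (or_congr Iff.rfl ⟨fun h => ext _ _ h, fun h => ext' _ _ h⟩), ?_,
      k2, h1, h2, b1, b2, b3, b4⟩
    exact k1
  · rw [← Fintype.card_of_bijective hfx, Fintype.card_sum]
    omega
  · rw [← Fintype.card_of_bijective hfy, Fintype.card_sum]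
    omega
  · rw [← (Equiv.ofBijective fx hfx).sum_comp]
    have e1 : ∀ x : X, ∑ y, sz x y = ∑ w, sz x (fy w) := fun x =>
      ((Equiv.ofBijective fy hfy).sum_comp (fun y => sz x y)).symm
    simp only [e1, Equiv.ofBijective_apply, Fintype.sum_sum_type, fx, fy, Sum.elim_inl,
      Sum.elim_inr]
    rw [← Finset.sum_add_distrib]
    have e2 : ∀ v : V, (∑ w : V, sz v.1.1 w.1.2 + ∑ w : V, sz v.1.1 (bc w.1.1)) +
        (∑ w : V, sz (mt v) w.1.2 + ∑ w : V, sz (mt v) (bc w.1.1)) =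
        Fintype.card V * (KK T + 1) + (2 * KK T + 3) := by
      intro v
      have e3 : ∑ w : V, sz v.1.1 w.1.2 + ∑ w : V, sz (mt v) w.1.2 =
          Fintype.card V * (KK T + 1) := by
        rw [← Finset.sum_add_distrib]
        simp only [hs1, Finset.sum_const, Finset.card_univ, smul_eq_mul]
      have e4 : ∑ w : V, sz v.1.1 (bc w.1.1) = KK T + 1 := by
        refine (Finset.sum_eq_single v (fun w _ hw => ?_) (fun h => ?_)).trans ?_
        · rw [hs2, if_neg (Ne.symm hw)]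
        · exact absurd (Finset.mem_univ _) h
        · rw [hs2, if_pos rfl]
      have e5 : ∑ w : V, sz (mt v) (bc w.1.1) = KK T + 2 := by
        refine (Finset.sum_eq_single v (fun w _ hw => ?_) (fun h => ?_)).trans ?_
        · rw [hs3, if_neg (Ne.symm hw)]
        · exact absurd (Finset.mem_univ _) h
        · rw [hs3, if_pos rfl]
      omega
    simp only [e2, Finset.sum_const, Finset.card_univ, smul_eq_mul]
    ring

end cells

end Pool.Agent.V8H44.PS
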