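import Pool.Agent.V8H44.PS.MatB

/-!
From a tiling to a matrix of multiplicities; multiplicities as numbers of elements.
-/

set_option autoImplicit false

namespace Pool.Agent.V8H44.PS

open Pool.Agent.V8H44.Sp

/-- cells of the standard matrix -/
inductive Pt (N : ℕ) : Type
  | mp (v w : Fin N) : Pt N
  | mm (v w : Fin N) : Pt N
  | lp (v : Fin N) : Pt N
  | lq (v : Fin N) : Pt N

/-- the cells as a sum -/
def Pt.equiv (N : ℕ) : Pt N ≃ ((Fin N × Fin N) ⊕ (Fin N × Fin N)) ⊕ (Fin N ⊕ Fin N) where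
  toFun
    | .mp v w => .inl (.inl (v, w))
    | .mm v w => .inl (.inr (v, w))
    | .lp v => .inr (.inl v)
    | .lq v => .inr (.inr v)
  invFun
    | .inl (.inl p) => .mp p.1 p.2
    | .inl (.inr p) => .mm p.1 p.2
    | .inr (.inl v) => .lp v
    | .inr (.inr v) => .lq v
  left_inv := by rintro (⟨v, w⟩ | ⟨v, w⟩ | v | v) <;> rfl
  right_inv := by rintro ((⟨v, w⟩ | ⟨v, w⟩) | (v | v)) <;> rfl

instance (N : ℕ) : Fintype (Pt N) := Fintype.ofEquiv _ (Pt.equiv N).symm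

/-- the row of a cell -/
def Pt.row {N : ℕ} : Pt N → Fin N × Bool
  | .mp v _ => (v, true)
  | .mm v _ => (v, false)
  | .lp v => (v, true)
  | .lq v => (v, false)

/-- the column of a cell -/
def Pt.col {N : ℕ} : Pt N → Fin N × Bool
  | .mp _ w => (w, true)
  | .mm _ w => (w, true)
  | .lp v => (v, false)
  | .lq v => (v, false)

/-- the multiplicity of a cell -/
noncomputable def Pt.mult {T : TileSys} {N : ℕ} (c : Fin N → Fin N → Lam T) : Pt N → ℕ
  | .mp v w => code (c v w)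
  | .mm v w => KK T + 1 - code (c v w)
  | .lp _ => KK T + 1
  | .lq _ => KK T + 2

section fwd

variable {T : TileSys} {N : ℕ} {c : Fin N → Fin N → Lam T}

theorem Pt.mult_pos (p : Pt N) : 0 < p.mult c := by
  rcases p with ⟨v, w⟩ | ⟨v, w⟩ | v | v
  · exact code_pos _
  · have := code_le (c v w)
    show 0 < KK T + 1 - code (c v w)
    omega
  · exact Nat.succ_pos _
  · exact Nat.succ_pos _

theorem Pt.sum_mult : ∑ p : Pt N, p.mult c = N ^ 2 * (KK T + 1) + N * (2 * KK T + 3) := by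
  rw [← (Pt.equiv N).symm.sum_comp]
  simp only [Fintype.sum_sum_type]
  show (∑ x : Fin N × Fin N, code (c x.1 x.2) + ∑ x : Fin N × Fin N, (KK T + 1 - code (c x.1 x.2)))
    + (∑ _x : Fin N, (KK T + 1) + ∑ _x : Fin N, (KK T + 2)) = _
  rw [← Finset.sum_add_distrib]
  have : ∀ x : Fin N × Fin N, code (c x.1 x.2) + (KK T + 1 - code (c x.1 x.2)) = KK T + 1 := by
    intro x
    have := code_le (c x.1 x.2)
    omega
  simp only [this, Finset.sum_const, Finset.card_univ, Fintype.card_prod, Fintype.card_fin,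
    smul_eq_mul]
  ring

theorem Pt.ext' {p q : Pt N} (h1 : p.row = q.row) (h2 : p.col = q.col) : p = q := by
  rcases p with ⟨v, w⟩ | ⟨v, w⟩ | v | v <;> rcases q with ⟨v', w'⟩ | ⟨v', w'⟩ | v' | v' <;>
    simp_all [Pt.row, Pt.col]

theorem wf_pt (hd : ∀ v w, (c v w).d = true ↔ v = w)
    (hc : ∀ x, ∃ y, ∀ z, ConP T (fun v => (c v v).o = true) (fun v w => (c v w).s = true)
      (fun v w => (c v w).l = true) (fun t v w => (c v w).t = t) x y z) :
    WF T (P := Pt N) (fun p q => p.row = q.row) (fun p q => p.col = q.col)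
      (fun j p => p.mult c = j) := by
  have hB : ∀ p : Pt N, Bg T (fun j p => p.mult c = j) p ↔ ∃ v, p = .lp v ∨ p = .lq v := by
    intro p
    rcases p with ⟨v, w⟩ | ⟨v, w⟩ | v | v
    · have h1 := code_le (c v w)
      constructor
      · rintro (h | h)
        · have h : code (c v w) = KK T + 1 := h
          omega
        · have h : code (c v w) = KK T + 2 := h
          omega
      · rintro ⟨u, h | h⟩ <;> cases h
    · have h1 := code_pos (c v w)
      constructor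
      · rintro (h | h)
        · have h : KK T + 1 - code (c v w) = KK T + 1 := h
          omega
        · have h : KK T + 1 - code (c v w) = KK T + 2 := h
          omega
      · rintro ⟨u, h | h⟩ <;> cases h
    · exact ⟨fun _ => ⟨v, Or.inl rfl⟩, fun _ => Or.inl rfl⟩
    · exact ⟨fun _ => ⟨v, Or.inr rfl⟩, fun _ => Or.inr rfl⟩
  have hK1 : ∀ p : Pt N, p.mult c = KK T + 1 ↔ ∃ v, p = .lp v := by
    intro p
    constructor
    · intro h
      obtain ⟨v, h1 | h1⟩ := (hB p).1 (Or.inl h)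
      · exact ⟨v, h1⟩
      · exfalso
        rw [h1] at h
        have h : KK T + 2 = KK T + 1 := h
        omega
    · rintro ⟨v, rfl⟩
      rfl
  have hK2 : ∀ p : Pt N, p.mult c = KK T + 2 ↔ ∃ v, p = .lq v := by
    intro p
    constructor
    · intro h
      obtain ⟨v, h1 | h1⟩ := (hB p).1 (Or.inr h)
      · exfalso
        rw [h1] at h
        have h : KK T + 1 = KK T + 2 := h
        omega
      · exact ⟨v, h1⟩
    · rintro ⟨v, rfl⟩
      rfl
  have hD : ∀ p : Pt N, Dg T (fun p q : Pt N => p.row = q.row) (fun j p => p.mult c = j) p ↔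
      ∃ v, p = .mp v v := by
    intro p
    constructor
    · rintro ⟨⟨c', h1, h2⟩, q, h3, h4⟩
      obtain ⟨u, rfl⟩ := (hK1 q).1 h4
      have h5 := code_le c'
      rcases p with ⟨v, w⟩ | ⟨v, w⟩ | v | v
      · have h6 := code_inj h2
        have h7 : v = w := (hd v w).1 (by rw [h6]; exact h1)
        exact ⟨v, by rw [h7]⟩
      · simp [Pt.row] at h3
      · have h2 : KK T + 1 = code c' := h2
        omega
      · have h2 : KK T + 2 = code c' := h2
        omega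
    · rintro ⟨v, rfl⟩
      exact ⟨⟨c v v, (hd v v).2 rfl, rfl⟩, .lp v, rfl, rfl⟩
  have hE : ∀ (c' : Lam T) (v w : Fin N), En T (fun p q : Pt N => p.row = q.row)
      (fun p q => p.col = q.col) (fun j p => p.mult c = j) c' (.mp v v) (.mp w w) ↔
      c v w = c' := by
    intro c' v w
    constructor
    · rintro ⟨p, h1, h2, h3⟩
      have h4 : p = .mp v w := Pt.ext' h1.symm h2.symm
      rw [h4] at h3
      exact code_inj h3
    · rintro rfl
      exact ⟨.mp v w, rfl, rfl, rfl⟩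
  refine ⟨?_, ?_, ?_, ?_, ?_, ?_, ?_, ?_, ?_, ?_, ?_, ?_, ?_, ?_, ?_⟩
  · rintro (⟨v, w⟩ | ⟨v, w⟩ | v | v)
    · have := code_le (c v w)
      exact ⟨⟨code (c v w), by omega⟩, rfl⟩
    · exact ⟨⟨KK T + 1 - code (c v w), by omega⟩, rfl⟩
    · exact ⟨⟨KK T + 1, by omega⟩, rfl⟩
    · exact ⟨⟨KK T + 2, by omega⟩, rfl⟩
  · rintro (⟨v, w⟩ | ⟨v, w⟩ | v | v)
    · exact ⟨.lp v, rfl, (hB _).2 ⟨v, Or.inl rfl⟩⟩
    · exact ⟨.lq v, rfl, (hB _).2 ⟨v, Or.inr rfl⟩⟩
    · exact ⟨.lp v, rfl, (hB _).2 ⟨v, Or.inl rfl⟩⟩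
    · exact ⟨.lq v, rfl, (hB _).2 ⟨v, Or.inr rfl⟩⟩
  · intro a b h1 h2 h3
    obtain ⟨v, rfl | rfl⟩ := (hB a).1 h2 <;> obtain ⟨w, rfl | rfl⟩ := (hB b).1 h3 <;>
      simp_all [Pt.row, Pt.col]
  · intro a h1
    obtain ⟨v, rfl⟩ := (hK1 a).1 h1
    exact ⟨.lq v, rfl, rfl⟩
  · intro a h1
    obtain ⟨v, rfl⟩ := (hK2 a).1 h1
    exact ⟨.lp v, rfl, rfl⟩
  · intro a b h1 h2 h3
    obtain ⟨v, rfl⟩ := (hK1 a).1 h2
    obtain ⟨w, rfl⟩ := (hK1 b).1 h3
    simp_all [Pt.row, Pt.col]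
  · intro a b h1 h2 h3
    obtain ⟨v, rfl⟩ := (hK2 a).1 h2
    obtain ⟨w, rfl⟩ := (hK2 b).1 h3
    simp_all [Pt.row, Pt.col]
  · intro a b h1 h2
    rw [hB] at h2 ⊢
    obtain ⟨v, rfl | rfl⟩ := h2 <;> rcases b with ⟨v', w'⟩ | ⟨v', w'⟩ | v' | v' <;>
      simp_all [Pt.col]
  · intro a b h1
    rw [hB] at h1
    rcases b with ⟨v', w'⟩ | ⟨v', w'⟩ | v' | v'
    · rcases a with ⟨v, w⟩ | ⟨v, w⟩ | v | v
      · exact ⟨.mp v w', rfl, rfl⟩
      · exact ⟨.mm v w', rfl, rfl⟩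
      · exact ⟨.mp v w', rfl, rfl⟩
      · exact ⟨.mm v w', rfl, rfl⟩
    · rcases a with ⟨v, w⟩ | ⟨v, w⟩ | v | v
      · exact ⟨.mp v w', rfl, rfl⟩
      · exact ⟨.mm v w', rfl, rfl⟩
      · exact ⟨.mp v w', rfl, rfl⟩
      · exact ⟨.mm v w', rfl, rfl⟩
    · exact absurd ⟨v', Or.inl rfl⟩ h1
    · exact absurd ⟨v', Or.inr rfl⟩ h1
  · rintro a b h1 h2 ⟨p, h3, h4, q, h5, h6, h7⟩ j h8
    obtain ⟨v, rfl⟩ := (hK1 p).1 h4
    obtain ⟨w, rfl⟩ := (hK2 q).1 h6
    rw [hB] at h1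
    have hvw : v = w := by simpa [Pt.col] using h5
    subst hvw
    rcases a with ⟨v', w'⟩ | ⟨v', w'⟩ | v' | v'
    · have e : b = .mm v w' := by
        apply Pt.ext'
        · exact h7.symm
        · exact h2.symm
      have e2 : v' = v := by simpa [Pt.row] using h3
      subst e2
      rw [e]
      have h8 : code (c v' w') = j := h8
      show KK T + 1 - code (c v' w') = KK T + 1 - j
      rw [h8]
    · simp [Pt.row] at h3
    · exact absurd ⟨v', Or.inl rfl⟩ h1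
    · exact absurd ⟨v', Or.inr rfl⟩ h1
  · intro p h1
    obtain ⟨v, rfl⟩ := (hK1 p).1 h1
    exact ⟨.mp v v, rfl, (hD _).2 ⟨v, rfl⟩⟩
  · intro a b h1 h2 h3
    obtain ⟨v, rfl⟩ := (hD a).1 h2
    obtain ⟨w, rfl⟩ := (hD b).1 h3
    simp_all [Pt.row, Pt.col]
  · intro b h1
    rw [hB] at h1
    rcases b with ⟨v', w'⟩ | ⟨v', w'⟩ | v' | v'
    · exact ⟨.mp w' w', rfl, (hD _).2 ⟨w', rfl⟩⟩
    · exact ⟨.mp w' w', rfl, (hD _).2 ⟨w', rfl⟩⟩
    · exact absurd ⟨v', Or.inl rfl⟩ h1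
    · exact absurd ⟨v', Or.inr rfl⟩ h1
  · intro a b h1 h2 h3
    obtain ⟨v, rfl⟩ := (hD a).1 h2
    obtain ⟨w, rfl⟩ := (hD b).1 h3
    simp_all [Pt.row, Pt.col]
  · intro x hx
    obtain ⟨v, rfl⟩ := (hD x).1 hx
    obtain ⟨w, hw⟩ := hc v
    refine ⟨.mp w w, (hD _).2 ⟨w, rfl⟩, fun z hz => ?_⟩
    obtain ⟨u, rfl⟩ := (hD z).1 hz
    have hQ : ∀ a b : Fin N, (Pt.row (.mp a a) = Pt.row (.mp b b) ∧
        Pt.col (.mp a a) = Pt.col (.mp b b)) ↔ a = b := by
      intro a b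
      simp [Pt.row, Pt.col]
    have hO : ∀ a : Fin N, (∃ c' : Lam T, c'.o = true ∧ Pt.mult c (.mp a a) = code c') ↔
        (c a a).o = true := by
      intro a
      constructor
      · rintro ⟨c', h1, h2⟩
        rw [code_inj (c := c a a) (c' := c') h2]
        exact h1
      · intro h1
        exact ⟨c a a, h1, rfl⟩
    have hX : ∀ (p : Lam T → Prop) (a b : Fin N), (∃ c' : Lam T, p c' ∧ c a b = c') ↔
        p (c a b) := by
      intro p a b
      constructor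
      · rintro ⟨c', h1, rfl⟩
        exact h1
      · intro h1
        exact ⟨_, h1, rfl⟩
    obtain ⟨s1, s2, s3, o1, l1, l2, l3, k1, k2, h1, h2, b1, b2, b3, b4⟩ := hw u
    refine ⟨?_, ?_, ?_, ?_, ?_, ?_, ?_, ?_, ?_, ?_, ?_, ?_, ?_, ?_, ?_⟩ <;>
      simp only [hQ, hO, hE, hX] <;> assumption

end fwd

end Pool.Agent.V8H44.PS
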