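import Pool.Agent.V8H44.PS.MatF

/-!
Multiplicities as numbers of elements.
-/

set_option autoImplicit false

namespace Pool.Agent.V8H44.PS

open Pool.Agent.V8H44.Sp

/-- at least `j` elements are in the relation `R` with `a` -/
def GE {P : Type} (R : P → P → Prop) (j : ℕ) (a : P) : Prop :=
  ∃ f : Fin j → P, (∀ i i', f i = f i' → i = i') ∧ ∀ i, R a (f i)

/-- exactly `j` elements are in the same cell as `a` -/
def Mlt {P : Type} (R1 R2 : P → P → Prop) (j : ℕ) (a : P) : Prop :=
  GE (fun a b => R1 a b ∧ R2 a b) j a ∧ ¬ GE (fun a b => R1 a b ∧ R2 a b) (j + 1) a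

theorem GE_iff {P : Type} [Finite P] (R : P → P → Prop) (j : ℕ) (a : P) :
    GE R j a ↔ j ≤ Nat.card {b // R a b} := by
  constructor
  · rintro ⟨f, h1, h2⟩
    have := Nat.card_le_card_of_injective (fun i : Fin j => (⟨f i, h2 i⟩ : {b // R a b}))
      (fun i i' h => h1 i i' (congrArg Subtype.val h))
    simpa using this
  · intro h
    let e := (Finite.equivFin {b // R a b}).symm
    refine ⟨fun i => (e (Fin.castLE h i)).1, fun i i' h1 => ?_, fun i => (e _).2⟩
    have h2 := e.injective (Subtype.ext h1)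
    exact Fin.castLE_injective h h2

theorem Mlt_iff {P : Type} [Finite P] (R1 R2 : P → P → Prop) (j : ℕ) (a : P) :
    Mlt R1 R2 j a ↔ Nat.card {b // R1 a b ∧ R2 a b} = j := by
  unfold Mlt
  rw [GE_iff, GE_iff]
  omega

theorem back (T : TileSys) {P X Y : Type} [Finite P] [Nonempty P] {g : P → X} {h : P → Y}
    (hg : Function.Surjective g) (hh : Function.Surjective h)
    (hW : WF T (fun a b => g a = g b) (fun a b => h a = h b)
      (Mlt (fun a b => g a = g b) (fun a b => h a = h b))) :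
    ∃ N, 0 < N ∧ T.Sol N ∧ Nat.card X = 2 * N ∧ Nat.card Y = 2 * N ∧
      Nat.card P = N ^ 2 * (KK T + 1) + N * (2 * KK T + 3) := by
  classical
  have hXf : Finite X := Finite.of_surjective g hg
  have hYf : Finite Y := Finite.of_surjective h hh
  obtain ⟨_⟩ := nonempty_fintype X
  obtain ⟨_⟩ := nonempty_fintype Y
  obtain ⟨_⟩ := nonempty_fintype P
  have hXn : Nonempty X := ⟨g (Classical.arbitrary P)⟩
  let sz : X → Y → ℕ := fun x y => Nat.card {b : P // g b = x ∧ h b = y}
  have hszp : ∀ a : P, 0 < sz (g a) (h a) := by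
    intro a
    have : Nonempty {b : P // g b = g a ∧ h b = h a} := ⟨⟨a, rfl, rfl⟩⟩
    exact Nat.card_pos
  have hsz0 : ∀ x y, 0 < sz x y → ∃ a, g a = x ∧ h a = y := by
    intro x y h0
    obtain ⟨⟨a, ha⟩⟩ := (Nat.card_pos_iff.1 h0).1
    exact ⟨a, ha⟩
  let f : P → Cell sz := fun a => ⟨(g a, h a), hszp a⟩
  have hf : Function.Surjective f := by
    rintro ⟨⟨x, y⟩, h0⟩
    obtain ⟨a, rfl, rfl⟩ := hsz0 x y h0
    exact ⟨a, rfl⟩
  have hWc : WF T (P := Cell sz) (fun a b => a.1.1 = b.1.1) (fun a b => a.1.2 = b.1.2)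
      (fun j a => sz a.1.1 a.1.2 = j) := by
    refine (WF_iff (f := f) hf (fun _ _ => Iff.rfl) (fun _ _ => Iff.rfl) ?_).2 hW
    intro j a
    rw [Mlt_iff]
    show Nat.card {b : P // g b = g a ∧ h b = h a} = j ↔ _
    simp only [eq_comm (a := g a), eq_comm (a := h a)]
  obtain ⟨N, h0, h1, h2, h3, h4⟩ := back_cells T (sz := sz)
    (fun x => by
      obtain ⟨a, rfl⟩ := hg x
      exact ⟨h a, hszp a⟩)
    (fun y => by
      obtain ⟨a, rfl⟩ := hh y
      exact ⟨g a, hszp a⟩) hWc
  refine ⟨N, h0, h1, ?_, ?_, ?_⟩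
  · rw [Nat.card_eq_fintype_card, h2]
  · rw [Nat.card_eq_fintype_card, h3]
  · rw [← h4]
    have e1 : Nat.card P = ∑ p : X × Y, Nat.card {b : P // (g b, h b) = p} := by
      rw [← Nat.card_sigma]
      exact Nat.card_congr (Equiv.sigmaFiberEquiv (fun b : P => (g b, h b))).symm
    rw [e1, Fintype.sum_prod_type]
    simp only [Prod.mk.injEq]
    rfl

/-- the standard set of elements -/
abbrev El {T : TileSys} {N : ℕ} (c : Fin N → Fin N → Lam T) : Type :=
  Σ p : Pt N, Fin (p.mult c)

theorem card_El {T : TileSys} {N : ℕ} (c : Fin N → Fin N → Lam T) :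
    Fintype.card (El c) = N ^ 2 * (KK T + 1) + N * (2 * KK T + 3) := by
  rw [Fintype.card_sigma]
  simp only [Fintype.card_fin]
  exact Pt.sum_mult

/-- the colours of the entries of the matrix of a tiling -/
theorem exists_col (T : TileSys) {N : ℕ} (hN : 0 < N) (h : T.Sol N) :
    ∃ c : Fin N → Fin N → Lam T, (∀ v w, (c v w).d = true ↔ v = w) ∧
      ∀ x, ∃ y, ∀ z, ConP T (fun v => (c v v).o = true) (fun v w => (c v w).s = true)
        (fun v w => (c v w).l = true) (fun t v w => (c v w).t = t) x y z := by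
  classical
  obtain ⟨c0, hc0⟩ := h
  obtain ⟨O, S, Lt, K, h⟩ := con_of_tiling T hN hc0
  have hK : ∀ v w, ∃ t, K t v w := by
    intro v w
    obtain ⟨y, hy⟩ := h v
    exact (hy w).k1
  have hKu : ∀ v w t t', K t v w → K t' v w → t = t' := by
    intro v w t t' h1 h2
    obtain ⟨y, hy⟩ := h v
    exact (hy w).k2 _ _ h1 h2
  choose kk hkk using hK
  have hKe : K = fun t v w => kk v w = t := by
    funext t v w
    apply propext
    constructor
    · intro h1
      exact hKu _ _ _ _ (hkk v w) h1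
    · rintro rfl
      exact hkk v w
  refine ⟨fun v w => ⟨kk v w, decide (S v w), decide (Lt v w), decide (v = w), decide (O v)⟩,
    fun v w => decide_eq_true_iff, ?_⟩
  simp only [decide_eq_true_eq]
  rw [hKe] at h
  exact h

/-- the standard structure -/
theorem forth (T : TileSys) {N : ℕ} {c : Fin N → Fin N → Lam T}
    (hd : ∀ v w, (c v w).d = true ↔ v = w)
    (hc : ∀ x, ∃ y, ∀ z, ConP T (fun v => (c v v).o = true) (fun v w => (c v w).s = true)
      (fun v w => (c v w).l = true) (fun t v w => (c v w).t = t) x y z)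
    {P : Type} [Finite P] {R1 R2 : P → P → Prop} (e : El c ≃ P)
    (h1 : ∀ a b, R1 (e a) (e b) ↔ a.1.row = b.1.row)
    (h2 : ∀ a b, R2 (e a) (e b) ↔ a.1.col = b.1.col) : WF T R1 R2 (Mlt R1 R2) := by
  have hf : Function.Surjective (fun a : P => (e.symm a).1) := by
    intro p
    exact ⟨e ⟨p, ⟨0, p.mult_pos⟩⟩, by simp⟩
  have h1' : ∀ a b, R1 a b ↔ (e.symm a).1.row = (e.symm b).1.row := by
    intro a b
    rw [← h1, e.apply_symm_apply, e.apply_symm_apply]
  have h2' : ∀ a b, R2 a b ↔ (e.symm a).1.col = (e.symm b).1.col := by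
    intro a b
    rw [← h2, e.apply_symm_apply, e.apply_symm_apply]
  refine (WF_iff (f := fun a : P => (e.symm a).1) hf (fun a b => (h1' a b).symm)
    (fun a b => (h2' a b).symm) ?_).1 (wf_pt hd hc)
  intro j a
  rw [Mlt_iff]
  have e1 : Nat.card {b // R1 a b ∧ R2 a b} = (e.symm a).1.mult c := by
    have e2 : {b // R1 a b ∧ R2 a b} ≃ {x : El c // x.1 = (e.symm a).1} :=
      e.symm.subtypeEquiv fun b => by
        rw [h1', h2']
        constructor
        · rintro ⟨h3, h4⟩
          exact (Pt.ext' h3 h4).symm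
        · intro h3
          rw [h3]
          exact ⟨rfl, rfl⟩
    have e3 : {x : El c // x.1 = (e.symm a).1} ≃ Fin ((e.symm a).1.mult c) :=
      Equiv.sigmaSubtype (e.symm a).1
    rw [Nat.card_congr (e2.trans e3), Nat.card_eq_fintype_card, Fintype.card_fin]
  rw [e1]

end Pool.Agent.V8H44.PS
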