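import Pool.Agent.V8H44.PS.EE

/-!
Intervals of a linear order between separating elements.
-/

set_option autoImplicit false
set_option linter.unusedVariables false

namespace Pool.Agent.V8H44.PS

open FirstOrder Pool.Agent.V8H44.Sp

/-- the same separators of the kind `S` are below `a` and below `b` -/
def Same {M : Type} (lt : M → M → Prop) (S : M → Prop) (a b : M) : Prop :=
  ∀ r, S r → (lt r a ↔ lt r b)

/-- after every separator of the kind `S` there is an element of `U` before the next separator -/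
def NoGap {M : Type} (lt : M → M → Prop) (U S : M → Prop) : Prop :=
  ∀ r, S r → ∃ a, U a ∧ lt r a ∧ ∀ r', S r' → lt r' a → ¬ lt r r'

theorem exists_sep {M : Type} [Finite M] {lt : M → M → Prop} (hl : IsLin lt) {U S : M → Prop}
    (hS : ∀ a, U a → ∃ r, S r ∧ lt r a) (hne : NoGap lt U S) :
    ∃ g : {a // U a} → {r // S r}, Function.Surjective g ∧
      ∀ a b, g a = g b ↔ Same lt S a b := by
  have hwf : WellFounded (fun x y : M => lt y x) := by
    have : Std.Irrefl (fun x y : M => lt y x) := ⟨fun a => hl.irr a⟩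
    have : IsTrans M (fun x y : M => lt y x) := ⟨fun a b c h1 h2 => hl.trans _ _ _ h2 h1⟩
    exact Finite.wellFounded_of_trans_of_irrefl _
  have hmax : ∀ a : {a // U a}, ∃ r : {r // S r}, lt r a ∧ ∀ r', S r' → lt r' a → ¬ lt r r' := by
    intro a
    obtain ⟨r0, h1, h2⟩ := hS a a.2
    obtain ⟨r, ⟨h3, h4⟩, h5⟩ := hwf.has_min {r | S r ∧ lt r a} ⟨r0, h1, h2⟩
    exact ⟨⟨r, h3⟩, h4, fun r' h6 h7 h8 => h5 r' ⟨h6, h7⟩ h8⟩
  choose g hg1 hg2 using hmax
  have huniq : ∀ (a : {a // U a}) (r : M), S r → lt r a → (∀ r', S r' → lt r' a → ¬ lt r r') →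
      r = g a := by
    intro a r h1 h2 h3
    rcases hl.tri r (g a) with h | h | h
    · exact absurd h (h3 _ (g a).2 (hg1 a))
    · exact h
    · exact absurd h (hg2 a r h1 h2)
  refine ⟨g, ?_, ?_⟩
  · rintro ⟨r, hr⟩
    obtain ⟨a, h1, h2, h3⟩ := hne r hr
    exact ⟨⟨a, h1⟩, Subtype.ext (huniq ⟨a, h1⟩ r hr h2 h3).symm⟩
  · have key : ∀ a b : {a // U a}, g a = g b → ∀ r, S r → lt r a → lt r b := by
      intro a b hab r hr h1
      rcases hl.tri r (g a) with h | h | h
      · rw [hab] at h
        exact hl.trans _ _ _ h (hg1 b)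
      · rw [h, hab]
        exact hg1 b
      · exact absurd h (hg2 a r hr h1)
    intro a b
    constructor
    · intro hab r hr
      exact ⟨key a b hab r hr, key b a hab.symm r hr⟩
    · intro h
      apply Subtype.ext
      refine huniq b (g a) (g a).2 ((h _ (g a).2).1 (hg1 a)) ?_
      intro r' h1 h2
      exact hg2 a r' h1 ((h _ h1).2 h2)

/-- lexicographic order of pairs of natural numbers -/
def klt (x y : ℕ × ℕ) : Prop := x.1 < y.1 ∨ (x.1 = y.1 ∧ x.2 < y.2)

theorem isLin_key {M : Type} {key : M → ℕ × ℕ} (h : Function.Injective key) :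
    IsLin (fun a b => klt (key a) (key b)) := by
  refine ⟨fun a => ?_, fun a b c => ?_, fun a b => ?_⟩
  · unfold klt
    omega
  · unfold klt
    omega
  · have : (key a).1 = (key b).1 ∧ (key a).2 = (key b).2 → a = b := fun h' =>
      h (Prod.ext h'.1 h'.2)
    have h3 : klt (key a) (key b) ∨ ((key a).1 = (key b).1 ∧ (key a).2 = (key b).2) ∨
        klt (key b) (key a) := by
      unfold klt
      omega
    rcases h3 with h3 | h3 | h3
    · exact Or.inl h3
    · exact Or.inr (Or.inl (this h3))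
    · exact Or.inr (Or.inr h3)

/-- position of a row or of a column -/
def idx {N : ℕ} (x : Fin N × Bool) : ℕ := 2 * x.1 + if x.2 then 1 else 0

theorem idx_lt {N : ℕ} (x : Fin N × Bool) : idx x < 2 * N := by
  obtain ⟨v, b⟩ := x
  have := v.2
  unfold idx
  cases b
  · simp only [Bool.false_eq_true, if_false]
    omega
  · simp only [if_true]
    omega

theorem idx_inj {N : ℕ} {x y : Fin N × Bool} (h : idx x = idx y) : x = y := by
  obtain ⟨v, b⟩ := x
  obtain ⟨w, c⟩ := y
  unfold idx at h
  have hb : ∀ b : Bool, (if b then 1 else 0 : ℕ) ≤ 1 := by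
    intro b
    cases b <;> simp
  have h1 := hb b
  have h2 := hb c
  simp only at h
  have h3 : v = w := by
    apply Fin.ext
    omega
  have h4 : (if b then 1 else 0 : ℕ) = if c then 1 else 0 := by omega
  rw [h3]
  cases b <;> cases c <;> simp_all

/-- the elements of the standard structure are numbered -/
noncomputable def en {T : TileSys} {N : ℕ} (c : Fin N → Fin N → Lam T) (a : El c) : ℕ :=
  Fintype.equivFin (El c) a

theorem en_inj {T : TileSys} {N : ℕ} {c : Fin N → Fin N → Lam T} {a b : El c}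
    (h : en c a = en c b) : a = b :=
  (Fintype.equivFin (El c)).injective (Fin.ext h)

theorem row_surj {T : TileSys} {N : ℕ} (c : Fin N → Fin N → Lam T) (r : Fin N × Bool) :
    ∃ a : El c, a.1.row = r := by
  obtain ⟨v, b⟩ := r
  cases b
  · exact ⟨⟨.lq v, ⟨0, Pt.mult_pos _⟩⟩, rfl⟩
  · exact ⟨⟨.lp v, ⟨0, Pt.mult_pos _⟩⟩, rfl⟩

theorem col_surj {T : TileSys} {N : ℕ} (c : Fin N → Fin N → Lam T) (r : Fin N × Bool) :
    ∃ a : El c, a.1.col = r := by
  obtain ⟨v, b⟩ := r
  cases b
  · exact ⟨⟨.lp v, ⟨0, Pt.mult_pos _⟩⟩, rfl⟩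
  · exact ⟨⟨.mp v v, ⟨0, Pt.mult_pos _⟩⟩, rfl⟩

section ud

variable {L : FirstOrder.Language.{0, 0}}
  {lt : ∀ (M : Type) (_ : L.Structure M), M → M → Prop}
  {U S : ∀ (M : Type) (_ : L.Structure M), M → Prop}

theorem ud_same (h : D2 lt) (hS : D1 S) : D2 (fun M s => Same (lt M s) (S M s)) := by
  intro i j
  refine (((hS (i + j + 1)).imp ((h (i + j + 1) i).iff (h (i + j + 1) j))).all
    (i + j + 1)).congr ?_
  intro M s v
  simp (disch := omega) only [Function.update_self, Function.update_of_ne]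
  rfl

theorem ud_noGap (h : D2 lt) (hU : D1 U) (hS : D1 S) :
    UD (L := L) (fun M s _ => NoGap (lt M s) (U M s) (S M s)) := by
  refine (((hS 0).imp (((hU 1).and ((h 0 1).and (((hS 2).imp ((h 2 1).imp (h 0 2).not)).all
    2))).ex 1)).all 0).congr ?_
  intro M s v
  simp (disch := omega) only [Function.update_self, Function.update_of_ne]
  rfl

end ud

end Pool.Agent.V8H44.PS
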