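import Pool.Agent.V8H44.Sp.UDA
import Pool.Agent.V8H44.PS.MatG

/-!
Uniformly definable properties of a definable part of a structure.
-/

set_option autoImplicit false
set_option linter.unusedVariables false
set_option linter.unusedSimpArgs false

namespace Pool.Agent.V8H44.PS

open FirstOrder Pool.Agent.V8H44.Sp

variable {L : FirstOrder.Language.{0, 0}} {U : ∀ (M : Type) (_ : L.Structure M), M → Prop}

/-- `Q` is defined by one formula in the part `U` of all structures -/
def UDU (U : ∀ (M : Type) (_ : L.Structure M), M → Prop)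
    (Q : ∀ (M : Type) (s : L.Structure M), (ℕ → {a // U M s a}) → Prop) : Prop :=
  ∃ φ : L.Formula ℕ, ∀ (M : Type) (s : L.Structure M) (v : ℕ → {a // U M s a}),
    Language.Formula.Realize φ (fun i => (v i : M)) ↔ Q M s v

section

variable {P Q : ∀ (M : Type) (s : L.Structure M), (ℕ → {a // U M s a}) → Prop}

theorem UDU.of {R : ∀ (M : Type) (_ : L.Structure M), (ℕ → M) → Prop} (h : UD R) :
    UDU U (fun M s v => R M s (fun i => (v i : M))) := by
  obtain ⟨φ, h⟩ := h
  exact ⟨φ, fun M s v => h M s _⟩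

theorem UDU.congr (h : UDU U P) (e : ∀ M s v, P M s v ↔ Q M s v) : UDU U Q := by
  obtain ⟨φ, h⟩ := h
  exact ⟨φ, fun M s v => (h M s v).trans (e M s v)⟩

theorem UDU.fls : UDU U (fun _ _ _ => False) :=
  ⟨⊥, fun _ _ _ => Iff.rfl⟩

theorem UDU.imp (h : UDU U P) (h' : UDU U Q) : UDU U (fun M s v => P M s v → Q M s v) := by
  obtain ⟨φ, h⟩ := h
  obtain ⟨ψ, h'⟩ := h'
  exact ⟨φ.imp ψ, fun M s v => imp_congr (h M s v) (h' M s v)⟩

theorem UDU.not (h : UDU U P) : UDU U (fun M s v => ¬ P M s v) :=
  (h.imp UDU.fls).congr fun _ _ _ => Iff.rfl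

theorem UDU.tru : UDU U (fun _ _ _ => True) :=
  UDU.fls.not.congr fun _ _ _ => by simp

theorem UDU.and (h : UDU U P) (h' : UDU U Q) : UDU U (fun M s v => P M s v ∧ Q M s v) :=
  (h.imp h'.not).not.congr fun _ _ _ => by tauto

theorem UDU.or (h : UDU U P) (h' : UDU U Q) : UDU U (fun M s v => P M s v ∨ Q M s v) :=
  (h.not.imp h').congr fun _ _ _ => by tauto

theorem UDU.iff (h : UDU U P) (h' : UDU U Q) : UDU U (fun M s v => P M s v ↔ Q M s v) :=
  ((h.imp h').and (h'.imp h)).congr fun _ _ _ => by tauto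

theorem UDU.iforall {ι : Type} [Finite ι]
    {R : ι → ∀ (M : Type) (s : L.Structure M), (ℕ → {a // U M s a}) → Prop}
    (h : ∀ i, UDU U (R i)) : UDU U (fun M s v => ∀ i, R i M s v) := by
  have key : ∀ s : Finset ι, UDU U (fun M st v => ∀ i ∈ s, R i M st v) := by
    classical
    intro s
    induction s using Finset.induction_on with
    | empty => exact UDU.tru.congr fun _ _ _ => by simp
    | insert a s _ ih => exact ((h a).and ih).congr fun _ _ _ => by simp
  obtain ⟨_⟩ := nonempty_fintype ι
  exact (key Finset.univ).congr fun _ _ _ => by simp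

theorem UDU.iexists {ι : Type} [Finite ι]
    {R : ι → ∀ (M : Type) (s : L.Structure M), (ℕ → {a // U M s a}) → Prop}
    (h : ∀ i, UDU U (R i)) : UDU U (fun M s v => ∃ i, R i M s v) :=
  (UDU.iforall fun i => (h i).not).not.congr fun _ _ _ => by
    push Not
    rfl

theorem UDU.const (c : Prop) : UDU U (fun _ _ _ => c) := by
  by_cases h : c
  · exact UDU.tru.congr fun _ _ _ => by simp [h]
  · exact UDU.fls.congr fun _ _ _ => by simp [h]

theorem UDU.eq (i j : ℕ) : UDU U (fun _ _ v => v i = v j) :=
  (UDU.of (UD.eq i j)).congr fun M s v => Subtype.ext_iff.symm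

/-- existential quantification over the variable `i` -/
theorem UDU.ex (hU : D1 U) (h : UDU U P) (i : ℕ) :
    UDU U (fun M s v => ∃ x, P M s (Function.update v i x)) := by
  obtain ⟨φ, h⟩ := h
  have h0 : UD (L := L) (fun M s v => Language.Formula.Realize φ v) :=
    ⟨φ, fun _ _ _ => Iff.rfl⟩
  obtain ⟨ψ, hψ⟩ := ((hU i).and h0).ex i
  refine ⟨ψ, fun M s v => (hψ M s _).trans ?_⟩
  have e : ∀ x : {a // U M s a}, (fun j => (Function.update v i x j : M)) =
      Function.update (fun j => (v j : M)) i (x : M) := by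
    intro x
    funext j
    by_cases hj : j = i
    · subst hj
      rw [Function.update_self, Function.update_self]
    · rw [Function.update_of_ne hj, Function.update_of_ne hj]
  constructor
  · rintro ⟨x, h1, h2⟩
    rw [Function.update_self] at h1
    refine ⟨⟨x, h1⟩, ?_⟩
    rw [← h, e]
    exact h2
  · rintro ⟨x, hx⟩
    rw [← h, e] at hx
    refine ⟨x, ?_, hx⟩
    rw [Function.update_self]
    exact x.2

/-- universal quantification over the variable `i` -/
theorem UDU.all (hU : D1 U) (h : UDU U P) (i : ℕ) :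
    UDU U (fun M s v => ∀ x, P M s (Function.update v i x)) :=
  ((UDU.ex hU h.not i).not).congr fun _ _ _ => by
    constructor
    · intro h x
      by_contra hx
      exact h ⟨x, hx⟩
    · rintro h ⟨x, hx⟩
      exact hx (h x)

/-- existential quantification over several variables -/
theorem UDU.exs (hU : D1 U) (h : UDU U P) (N r : ℕ) :
    UDU U (fun M s v => ∃ a : Fin r → {a // U M s a}, P M s (ovr v N a)) := by
  induction r generalizing P with
  | zero =>
    refine h.congr fun M s v => ?_
    have : ∀ a : Fin 0 → {a // U M s a}, ovr v N a = v := by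
      intro a
      funext i
      unfold ovr
      rw [dif_neg (by omega)]
    constructor
    · intro h
      exact ⟨Fin.elim0, by rwa [this]⟩
    · rintro ⟨a, ha⟩
      rwa [this] at ha
  | succ r ih =>
    refine (ih (UDU.ex hU h (N + r))).congr fun M s v => ?_
    constructor
    · rintro ⟨a, x, hx⟩
      refine ⟨Fin.snoc a x, ?_⟩
      rw [ovr_snoc]
      simpa using hx
    · rintro ⟨a, ha⟩
      rw [ovr_snoc] at ha
      exact ⟨fun i => a (Fin.castSucc i), a (Fin.last r), ha⟩

/-- properties of the whole part -/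
theorem UDU.close {R : ∀ (M : Type) (_ : L.Structure M), Prop} (hU : D1 U)
    (h : UDU U (fun M s _ => R M s)) :
    UD (L := L) (fun M s _ => (∃ x, U M s x) ∧ R M s) := by
  obtain ⟨φ, h⟩ := h
  have h0 : UD (L := L) (fun M s v => Language.Formula.Realize φ v) :=
    ⟨φ, fun _ _ _ => Iff.rfl⟩
  refine (((hU 0).and (h0.subst fun _ => 0)).ex 0).congr fun M s v => ?_
  constructor
  · rintro ⟨x, h1, h2⟩
    rw [Function.update_self] at h1 h2
    exact ⟨⟨x, h1⟩, (h M s (fun _ => ⟨x, h1⟩)).1 h2⟩
  · rintro ⟨⟨x, h1⟩, h2⟩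
    refine ⟨x, ?_, ?_⟩
    · rw [Function.update_self]
      exact h1
    · rw [Function.update_self]
      exact (h M s (fun _ => ⟨x, h1⟩)).2 h2

end

/-- uniformly definable unary relations on the part `U` -/
def DU1 (U : ∀ (M : Type) (_ : L.Structure M), M → Prop)
    (R : ∀ (M : Type) (s : L.Structure M), {a // U M s a} → Prop) : Prop :=
  ∀ i, UDU U (fun M s v => R M s (v i))

/-- uniformly definable binary relations on the part `U` -/
def DU2 (U : ∀ (M : Type) (_ : L.Structure M), M → Prop)
    (R : ∀ (M : Type) (s : L.Structure M), {a // U M s a} → {a // U M s a} → Prop) : Prop :=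
  ∀ i j, UDU U (fun M s v => R M s (v i) (v j))

theorem DU2.ge (hU : D1 U)
    {R : ∀ (M : Type) (s : L.Structure M), {a // U M s a} → {a // U M s a} → Prop}
    (h : DU2 U R) (j : ℕ) : DU1 U (fun M s a => GE (R M s) j a) := by
  intro i0
  have h1 : UDU U (fun M s v => (∀ i i' : Fin j, v (i0 + 1 + i) = v (i0 + 1 + i') → i = i') ∧
      ∀ i : Fin j, R M s (v i0) (v (i0 + 1 + i))) :=
    (UDU.iforall fun i => UDU.iforall fun i' => (UDU.eq _ _).imp (UDU.const _)).and
      (UDU.iforall fun i => h _ _)
  refine (UDU.exs hU h1 (i0 + 1) j).congr fun M s v => ?_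
  refine exists_congr fun f => ?_
  have e1 : ovr v (i0 + 1) f i0 = v i0 := by
    unfold ovr
    rw [dif_neg (by omega)]
  have e2 : ∀ i : Fin j, ovr v (i0 + 1) f (i0 + 1 + i) = f i := by
    intro i
    unfold ovr
    rw [dif_pos (by omega)]
    congr 1
    apply Fin.ext
    simp
  simp only [e1, e2]

end Pool.Agent.V8H44.PS
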