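import Pool.Agent.V8H44.PS.UDU

/-!
The property `WF` is uniformly definable.
-/

set_option autoImplicit false
set_option linter.unusedVariables false
set_option linter.unusedSimpArgs false

namespace Pool.Agent.V8H44.PS

open FirstOrder Pool.Agent.V8H44.Sp

variable {L : FirstOrder.Language.{0, 0}} {U : ∀ (M : Type) (_ : L.Structure M), M → Prop}

section

variable {R R1 R2 : ∀ (M : Type) (s : L.Structure M), {a // U M s a} → {a // U M s a} → Prop}

theorem DU2.mlt (hU : D1 U) (h1 : DU2 U R1) (h2 : DU2 U R2) (j : ℕ) :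
    DU1 U (fun M s a => Mlt (R1 M s) (R2 M s) j a) := by
  have h : DU2 U (fun M s a b => R1 M s a b ∧ R2 M s a b) := fun i j => (h1 i j).and (h2 i j)
  exact fun i => ((h.ge hU j) i).and (((h.ge hU (j + 1)) i).not)

variable {m : ℕ → ∀ (M : Type) (s : L.Structure M), {a // U M s a} → Prop}

theorem DU1.bg (T : TileSys) (hm : ∀ j, DU1 U (m j)) :
    DU1 U (fun M s => Bg T (fun j => m j M s)) :=
  fun i => (hm _ i).or (hm _ i)

theorem DU1.dg (T : TileSys) (hU : D1 U) (h1 : DU2 U R1) (hm : ∀ j, DU1 U (m j)) :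
    DU1 U (fun M s => Dg T (R1 M s) (fun j => m j M s)) := by
  intro i
  have := Lam.finite T
  have e : UDU U (fun M s v => ∃ c : Lam T, c.d = true ∧ m (code c) M s (v i)) :=
    UDU.iexists fun c => (UDU.const _).and (hm _ i)
  refine (e.and (UDU.ex hU ((h1 i (i + 1)).and (hm (KK T + 1) (i + 1))) (i + 1))).congr ?_
  intro M s v
  simp (disch := omega) only [Function.update_self, Function.update_of_ne]
  rfl

theorem DU2.en (T : TileSys) (hU : D1 U) (h1 : DU2 U R1) (h2 : DU2 U R2)
    (hm : ∀ j, DU1 U (m j)) (c : Lam T) :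
    DU2 U (fun M s => En T (R1 M s) (R2 M s) (fun j => m j M s) c) := by
  intro i j
  refine (UDU.ex hU ((h1 i (i + j + 1)).and ((h2 j (i + j + 1)).and (hm (code c) (i + j + 1))))
    (i + j + 1)).congr ?_
  intro M s v
  simp (disch := omega) only [Function.update_self, Function.update_of_ne]
  rfl

theorem UDU.conE (T : TileSys) {Q : ∀ (M : Type) (s : L.Structure M),
      {a // U M s a} → {a // U M s a} → Prop}
    {O : ∀ (M : Type) (s : L.Structure M), {a // U M s a} → Prop}
    {S Lt : ∀ (M : Type) (s : L.Structure M), {a // U M s a} → {a // U M s a} → Prop}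
    {K : T.C → ∀ (M : Type) (s : L.Structure M), {a // U M s a} → {a // U M s a} → Prop}
    (hQ : DU2 U Q) (hO : DU1 U O) (hS : DU2 U S) (hL : DU2 U Lt) (hK : ∀ t, DU2 U (K t))
    (a b c : ℕ) :
    UDU U (fun M s v => ConE T (Q M s) (O M s) (S M s) (Lt M s) (fun t => K t M s)
      (v a) (v b) (v c)) := by
  have := T.fin
  have e : UDU U (fun M s v =>
    (S M s (v a) (v b)) ∧
    (S M s (v a) (v c) → Q M s (v c) (v b)) ∧
    (S M s (v c) (v b) → Q M s (v c) (v a)) ∧
    (O M s (v a) ∧ O M s (v c) → Q M s (v a) (v c)) ∧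
    (¬ Lt M s (v a) (v a)) ∧
    (O M s (v b) → ¬ Lt M s (v c) (v b)) ∧
    (¬ O M s (v b) → (Lt M s (v c) (v b) ↔ (Lt M s (v c) (v a) ∨ Q M s (v c) (v a)))) ∧
    (∃ d, K d M s (v a) (v c)) ∧
    (∀ d, ∀ d', K d M s (v a) (v c) → K d' M s (v a) (v c) → d = d') ∧
    (¬ O M s (v b) → ∀ d, ∀ d', K d M s (v a) (v c) → K d' M s (v b) (v c) → T.H d d') ∧
    (¬ O M s (v b) → ∀ d, ∀ d', K d M s (v c) (v a) → K d' M s (v c) (v b) → T.V d d') ∧
    (O M s (v a) → ∀ d, K d M s (v a) (v c) → T.Lf d) ∧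
    (O M s (v b) → ∀ d, K d M s (v a) (v c) → T.Rt d) ∧
    (O M s (v a) → ∀ d, K d M s (v c) (v a) → T.Bt d) ∧
    (O M s (v b) → ∀ d, K d M s (v c) (v a) → T.Tp d)) := by
    refine (hS _ _).and ((UDU.imp (hS _ _) (hQ _ _)).and
      ((UDU.imp (hS _ _) (hQ _ _)).and
      ((UDU.imp ((hO _).and (hO _)) (hQ _ _)).and
      ((hL _ _).not.and
      ((UDU.imp (hO _) (hL _ _).not).and
      ((UDU.imp (hO _).not ((hL _ _).iff ((hL _ _).or (hQ _ _)))).and
      ((UDU.iexists fun _ => hK _ _ _).and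
      ((UDU.iforall fun _ => UDU.iforall fun _ => UDU.imp (hK _ _ _)
        (UDU.imp (hK _ _ _) (UDU.const _))).and
      ((UDU.imp (hO _).not (UDU.iforall fun _ => UDU.iforall fun _ => UDU.imp (hK _ _ _)
        (UDU.imp (hK _ _ _) (UDU.const _)))).and
      ((UDU.imp (hO _).not (UDU.iforall fun _ => UDU.iforall fun _ => UDU.imp (hK _ _ _)
        (UDU.imp (hK _ _ _) (UDU.const _)))).and
      ((UDU.imp (hO _) (UDU.iforall fun _ => UDU.imp (hK _ _ _) (UDU.const _))).and
      ((UDU.imp (hO _) (UDU.iforall fun _ => UDU.imp (hK _ _ _) (UDU.const _))).and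
      ((UDU.imp (hO _) (UDU.iforall fun _ => UDU.imp (hK _ _ _) (UDU.const _))).and
      ((UDU.imp (hO _)
        (UDU.iforall fun _ => UDU.imp (hK _ _ _) (UDU.const _)))))))))))))))))
  refine e.congr fun M s v => ?_
  constructor
  · rintro ⟨h1, h2, h3, h4, h5, h6, h7, h8, h9, h10, h11, h12, h13, h14, h15⟩
    exact ⟨h1, h2, h3, h4, h5, h6, h7, h8, h9, h10, h11, h12, h13, h14, h15⟩
  · rintro ⟨h1, h2, h3, h4, h5, h6, h7, h8, h9, h10, h11, h12, h13, h14, h15⟩
    exact ⟨h1, h2, h3, h4, h5, h6, h7, h8, h9, h10, h11, h12, h13, h14, h15⟩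

theorem UDU.wf (T : TileSys) (hU : D1 U) (h1 : DU2 U R1) (h2 : DU2 U R2)
    (hm : ∀ j, DU1 U (m j)) :
    UDU U (fun M s _ => WF T (R1 M s) (R2 M s) (fun j => m j M s)) := by
  have hF := Lam.finite T
  have hB := DU1.bg T hm
  have hD := DU1.dg T hU h1 hm
  have hE := DU2.en T hU h1 h2 hm
  have g1 : UDU U (fun M s _ => ∀ a, ∃ j : Fin (KK T + 3), m j M s a) := by
    refine (UDU.all hU (UDU.iexists fun j : Fin (KK T + 3) => hm j 0) 0).congr ?_
    intro M s v
    simp (disch := omega) only [Function.update_self, Function.update_of_ne]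
  have g2 : UDU U (fun M s _ => ∀ a, ∃ b, R1 M s a b ∧ Bg T (fun j => m j M s) b) := by
    refine (UDU.all hU (UDU.ex hU ((h1 0 1).and (hB 1)) 1) 0).congr ?_
    intro M s v
    simp (disch := omega) only [Function.update_self, Function.update_of_ne]
  have g3 : UDU U (fun M s _ => ∀ a b, R1 M s a b → Bg T (fun j => m j M s) a →
      Bg T (fun j => m j M s) b → R2 M s a b) := by
    refine (UDU.all hU (UDU.all hU ((h1 0 1).imp ((hB 0).imp ((hB 1).imp (h2 0 1)))) 1) 0).congr ?_
    intro M s v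
    simp (disch := omega) only [Function.update_self, Function.update_of_ne]
  have g4 : UDU U (fun M s _ => ∀ a, m (KK T + 1) M s a → ∃ b, R2 M s a b ∧
      m (KK T + 2) M s b) := by
    refine (UDU.all hU ((hm (KK T + 1) 0).imp (UDU.ex hU ((h2 0 1).and (hm (KK T + 2) 1))
      1)) 0).congr ?_
    intro M s v
    simp (disch := omega) only [Function.update_self, Function.update_of_ne]
  have g5 : UDU U (fun M s _ => ∀ a, m (KK T + 2) M s a → ∃ b, R2 M s a b ∧
      m (KK T + 1) M s b) := by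
    refine (UDU.all hU ((hm (KK T + 2) 0).imp (UDU.ex hU ((h2 0 1).and (hm (KK T + 1) 1))
      1)) 0).congr ?_
    intro M s v
    simp (disch := omega) only [Function.update_self, Function.update_of_ne]
  have g6 : UDU U (fun M s _ => ∀ a b, R2 M s a b → m (KK T + 1) M s a → m (KK T + 1) M s b →
      R1 M s a b) := by
    refine (UDU.all hU (UDU.all hU ((h2 0 1).imp ((hm (KK T + 1) 0).imp ((hm (KK T + 1) 1).imp
      (h1 0 1)))) 1) 0).congr ?_
    intro M s v
    simp (disch := omega) only [Function.update_self, Function.update_of_ne]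
  have g7 : UDU U (fun M s _ => ∀ a b, R2 M s a b → m (KK T + 2) M s a → m (KK T + 2) M s b →
      R1 M s a b) := by
    refine (UDU.all hU (UDU.all hU ((h2 0 1).imp ((hm (KK T + 2) 0).imp ((hm (KK T + 2) 1).imp
      (h1 0 1)))) 1) 0).congr ?_
    intro M s v
    simp (disch := omega) only [Function.update_self, Function.update_of_ne]
  have g8 : UDU U (fun M s _ => ∀ a b, R2 M s a b → Bg T (fun j => m j M s) a →
      Bg T (fun j => m j M s) b) := by
    refine (UDU.all hU (UDU.all hU ((h2 0 1).imp ((hB 0).imp (hB 1))) 1) 0).congr ?_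
    intro M s v
    simp (disch := omega) only [Function.update_self, Function.update_of_ne]
  have g9 : UDU U (fun M s _ => ∀ a b, ¬ Bg T (fun j => m j M s) b →
      ∃ c, R1 M s a c ∧ R2 M s c b) := by
    refine (UDU.all hU (UDU.all hU ((hB 1).not.imp (UDU.ex hU ((h1 0 2).and (h2 2 1)) 2)) 1)
      0).congr ?_
    intro M s v
    simp (disch := omega) only [Function.update_self, Function.update_of_ne]
  have g10 : UDU U (fun M s _ => ∀ a b, ¬ Bg T (fun j => m j M s) a → R2 M s a b →
      (∃ p, R1 M s a p ∧ m (KK T + 1) M s p ∧ ∃ q, R2 M s p q ∧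
      m (KK T + 2) M s q ∧ R1 M s q b) → ∀ j : Fin (KK T + 2), m j M s a →
      m (KK T + 1 - j) M s b) := by
    refine (UDU.all hU (UDU.all hU ((hB 0).not.imp ((h2 0 1).imp ((UDU.ex hU ((h1 0 2).and
      ((hm (KK T + 1) 2).and (UDU.ex hU ((h2 2 3).and ((hm (KK T + 2) 3).and (h1 3 1))) 3)))
      2).imp (UDU.iforall fun j : Fin (KK T + 2) => (hm j 0).imp (hm (KK T + 1 - j) 1))))) 1)
      0).congr ?_
    intro M s v
    simp (disch := omega) only [Function.update_self, Function.update_of_ne]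
  have g11 : UDU U (fun M s _ => ∀ p, m (KK T + 1) M s p → ∃ d, R1 M s p d ∧
      Dg T (R1 M s) (fun j => m j M s) d) := by
    refine (UDU.all hU ((hm (KK T + 1) 0).imp (UDU.ex hU ((h1 0 1).and (hD 1)) 1)) 0).congr ?_
    intro M s v
    simp (disch := omega) only [Function.update_self, Function.update_of_ne]
  have g12 : UDU U (fun M s _ => ∀ d d', R1 M s d d' → Dg T (R1 M s) (fun j => m j M s) d →
      Dg T (R1 M s) (fun j => m j M s) d' → R2 M s d d') := by
    refine (UDU.all hU (UDU.all hU ((h1 0 1).imp ((hD 0).imp ((hD 1).imp (h2 0 1)))) 1) 0).congr ?_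
    intro M s v
    simp (disch := omega) only [Function.update_self, Function.update_of_ne]
  have g13 : UDU U (fun M s _ => ∀ b, ¬ Bg T (fun j => m j M s) b → ∃ d, R2 M s d b ∧
      Dg T (R1 M s) (fun j => m j M s) d) := by
    refine (UDU.all hU ((hB 0).not.imp (UDU.ex hU ((h2 1 0).and (hD 1)) 1)) 0).congr ?_
    intro M s v
    simp (disch := omega) only [Function.update_self, Function.update_of_ne]
  have g14 : UDU U (fun M s _ => ∀ d d', R2 M s d d' → Dg T (R1 M s) (fun j => m j M s) d →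
      Dg T (R1 M s) (fun j => m j M s) d' → R1 M s d d') := by
    refine (UDU.all hU (UDU.all hU ((h2 0 1).imp ((hD 0).imp ((hD 1).imp (h1 0 1)))) 1) 0).congr ?_
    intro M s v
    simp (disch := omega) only [Function.update_self, Function.update_of_ne]
  have hQ : DU2 U (fun M s a b => R1 M s a b ∧ R2 M s a b) := fun i j => (h1 i j).and (h2 i j)
  have hO : DU1 U (fun M s a => ∃ c : Lam T, c.o = true ∧ m (code c) M s a) := fun i =>
    UDU.iexists fun c => (UDU.const _).and (hm _ i)
  have hX : ∀ p : Lam T → Prop, DU2 U (fun M s a b => ∃ c : Lam T, p c ∧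
      En T (R1 M s) (R2 M s) (fun j => m j M s) c a b) := fun p i j =>
    UDU.iexists fun c => (UDU.const _).and (hE c i j)
  have hcon := fun a b c => UDU.conE T hQ hO (hX fun c => c.s = true) (hX fun c => c.l = true)
    (fun t => hX fun c => c.t = t) a b c
  have g15 : UDU U (fun M s _ => ∀ x, Dg T (R1 M s) (fun j => m j M s) x →
      ∃ y, Dg T (R1 M s) (fun j => m j M s) y ∧ ∀ z, Dg T (R1 M s) (fun j => m j M s) z →
      ConE T (fun a b => R1 M s a b ∧ R2 M s a b)
        (fun a => ∃ c : Lam T, c.o = true ∧ m (code c) M s a)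
        (fun a b => ∃ c : Lam T, c.s = true ∧ En T (R1 M s) (R2 M s) (fun j => m j M s) c a b)
        (fun a b => ∃ c : Lam T, c.l = true ∧ En T (R1 M s) (R2 M s) (fun j => m j M s) c a b)
        (fun t a b => ∃ c : Lam T, c.t = t ∧ En T (R1 M s) (R2 M s) (fun j => m j M s) c a b)
        x y z) := by
    refine (UDU.all hU ((hD 0).imp (UDU.ex hU ((hD 1).and (UDU.all hU ((hD 2).imp
      (hcon 0 1 2)) 2)) 1)) 0).congr ?_
    intro M s v
    simp (disch := omega) only [Function.update_self, Function.update_of_ne]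
  refine (g1.and (g2.and (g3.and (g4.and (g5.and (g6.and (g7.and (g8.and (g9.and (g10.and
    (g11.and (g12.and (g13.and (g14.and g15)))))))))))))).congr fun M s v => ?_
  constructor
  · rintro ⟨h1, h2, h3, h4, h5, h6, h7, h8, h9, h10, h11, h12, h13, h14, h15⟩
    exact ⟨h1, h2, h3, h4, h5, h6, h7, h8, h9, h10, h11, h12, h13, h14, h15⟩
  · rintro ⟨h1, h2, h3, h4, h5, h6, h7, h8, h9, h10, h11, h12, h13, h14, h15⟩
    exact ⟨h1, h2, h3, h4, h5, h6, h7, h8, h9, h10, h11, h12, h13, h14, h15⟩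

end

end Pool.Agent.V8H44.PS
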